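import Pool.Agent.Lib.MP_629a14_nt.Spc.Defs
import Pool.Agent.Lib.MP_629a14_nt.En.Dev

/-! The mean square of the deviation over a family with few large Fourier coefficients. -/

set_option autoImplicit false

namespace Pool.Agent.Lib.MP_629a14_nt.Spc

open Finset Pool.Agent.Lib.MP_629a14_nt Pool.Agent.Lib.MP_629a14_nt.Rob
  Pool.Agent.Lib.MP_629a14_nt.En Pool.Agent.Lib.MP_629a14_nt.Fc

private theorem eventually_small (A c η : ℝ) (hA : 0 ≤ A) (hc : 0 < c) (hη : 0 < η) :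
    ∃ v₀ : ℕ, ∀ v : ℕ, v₀ ≤ v → A * (Real.log v) ^ 4 ≤ η * (v : ℝ) ^ c := by
  have h1 : (fun x : ℝ => (Real.log x) ^ (4 : ℝ)) =o[Filter.atTop] fun x : ℝ => x ^ c :=
    isLittleO_log_rpow_rpow_atTop 4 hc
  have h2 := h1.def (c := η / (A + 1)) (by positivity)
  rw [Filter.eventually_atTop] at h2
  obtain ⟨x₀, hx₀⟩ := h2
  refine ⟨⌈x₀⌉₊ + 1, fun v hv => ?_⟩
  have hv1 : x₀ ≤ v := (Nat.le_ceil x₀).trans (by exact_mod_cast (by omega : ⌈x₀⌉₊ ≤ v))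
  have h3 := hx₀ v hv1
  have e4 : (Real.log (v : ℝ)) ^ (4 : ℝ) = (Real.log v) ^ 4 := by
    rw [← Real.rpow_natCast]
    norm_num
  rw [Real.norm_eq_abs, Real.norm_eq_abs, e4, abs_of_nonneg (by positivity),
    abs_of_nonneg (by positivity)] at h3
  have hvc : 0 ≤ (v : ℝ) ^ c := by positivity
  calc A * (Real.log v) ^ 4 ≤ A * (η / (A + 1) * (v : ℝ) ^ c) :=
        mul_le_mul_of_nonneg_left h3 hA
    _ = (A / (A + 1)) * (η * (v : ℝ) ^ c) := by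
        field_simp
    _ ≤ 1 * (η * (v : ℝ) ^ c) := by
        apply mul_le_mul_of_nonneg_right _ (by positivity)
        rw [div_le_one (by positivity)]
        linarith
    _ = η * (v : ℝ) ^ c := one_mul _

private theorem root_X {r p δ C κ V n S : ℝ} (hδ : 0 < δ) (hp : p = 2 + δ) (hr : r = 2 + 2 * δ)
    (hC : 0 < C) (hκ : 1 ≤ κ) (hV : 0 < V) (hn : 0 < n) (hS0 : 0 ≤ S)
    (hS : S ≤ (2 / V * n) ^ (r - p) * (C * n ^ p * κ ^ p)) :
    S ^ (1 / r) ≤ (2 ^ δ * C) ^ (1 / r) * V ^ (-(δ / r)) * n * κ := by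
  have hr0 : 0 < r := by rw [hr]; linarith
  have hκ0 : 0 < κ := by linarith
  have hrp : r - p = δ := by rw [hr, hp]; ring
  have h1 : S ≤ (2 ^ δ * C) * V ^ (-δ) * n ^ r * κ ^ r := by
    refine hS.trans ?_
    rw [hrp, show (2 / V * n) = 2 * V⁻¹ * n by ring, Real.mul_rpow (by positivity) hn.le,
      Real.mul_rpow (by norm_num) (by positivity), Real.inv_rpow hV.le, ← Real.rpow_neg hV.le]
    have e1 : n ^ r = n ^ δ * n ^ p := by
      rw [← Real.rpow_add hn]; congr 1; rw [hr, hp]; ring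
    have e2 : κ ^ p ≤ κ ^ r := Real.rpow_le_rpow_of_exponent_le hκ (by rw [hr, hp]; linarith)
    rw [e1]
    calc 2 ^ δ * V ^ (-δ) * n ^ δ * (C * n ^ p * κ ^ p)
        = (2 ^ δ * C * V ^ (-δ) * (n ^ δ * n ^ p)) * κ ^ p := by ring
      _ ≤ (2 ^ δ * C * V ^ (-δ) * (n ^ δ * n ^ p)) * κ ^ r :=
          mul_le_mul_of_nonneg_left e2 (by positivity)
  calc S ^ (1 / r) ≤ ((2 ^ δ * C) * V ^ (-δ) * n ^ r * κ ^ r) ^ (1 / r) :=
        Real.rpow_le_rpow hS0 h1 (by positivity)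
    _ = (2 ^ δ * C) ^ (1 / r) * V ^ (-(δ / r)) * n * κ := by
        rw [Real.mul_rpow (by positivity) (by positivity),
          Real.mul_rpow (by positivity) (by positivity),
          Real.mul_rpow (by positivity) (by positivity), ← Real.rpow_mul hV.le,
          ← Real.rpow_mul hn.le, ← Real.rpow_mul hκ0.le, mul_one_div_cancel hr0.ne',
          Real.rpow_one, Real.rpow_one]
        congr 4
        ring

private theorem root_Y {r C κ n S : ℝ} (hr0 : 0 < r)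
    (hC : 0 < C) (hκ : 1 ≤ κ) (hn : 0 < n) (hS0 : 0 ≤ S)
    (hS : S ≤ C * n ^ r * κ ^ r) : S ^ (1 / r) ≤ C ^ (1 / r) * n * κ := by
  have hκ0 : 0 < κ := by linarith
  calc S ^ (1 / r) ≤ (C * n ^ r * κ ^ r) ^ (1 / r) := Real.rpow_le_rpow hS0 hS (by positivity)
    _ = C ^ (1 / r) * n * κ := by
        rw [Real.mul_rpow (by positivity) (by positivity),
          Real.mul_rpow (by positivity) (by positivity),
          ← Real.rpow_mul hn.le, ← Real.rpow_mul hκ0.le, mul_one_div_cancel hr0.ne',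
          Real.rpow_one, Real.rpow_one]

private lemma cs_step {ι : Type*} (H : Finset ι) (x y : ι → ℝ) (hx : ∀ h ∈ H, 0 ≤ x h)
    (hy : ∀ h ∈ H, 0 ≤ y h) (q r : ℝ) (hq : 0 < q) (hr : r = 2 * q) :
    (∑ h ∈ H, (x h * y h) ^ q) ^ (1 / q) ≤
      (∑ h ∈ H, x h ^ r) ^ (1 / r) * (∑ h ∈ H, y h ^ r) ^ (1 / r) := by
  have hX : 0 ≤ ∑ h ∈ H, x h ^ r := Finset.sum_nonneg (fun h hh => Real.rpow_nonneg (hx h hh) _)
  have hY : 0 ≤ ∑ h ∈ H, y h ^ r := Finset.sum_nonneg (fun h hh => Real.rpow_nonneg (hy h hh) _)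
  have h1 : ∑ h ∈ H, (x h * y h) ^ q ≤
      (∑ h ∈ H, x h ^ r) ^ (1 / (2:ℝ)) * (∑ h ∈ H, y h ^ r) ^ (1 / (2:ℝ)) := by
    have h2 := Real.inner_le_Lp_mul_Lq_of_nonneg H (f := fun h => x h ^ q) (g := fun h => y h ^ q)
      (p := 2) (q := 2) (by constructor <;> norm_num)
      (fun h hh => Real.rpow_nonneg (hx h hh) _) (fun h hh => Real.rpow_nonneg (hy h hh) _)
    have e1 : ∑ h ∈ H, (x h * y h) ^ q = ∑ h ∈ H, x h ^ q * y h ^ q :=
      Finset.sum_congr rfl (fun h hh => Real.mul_rpow (hx h hh) (hy h hh))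
    have e2 : ∑ h ∈ H, x h ^ r = ∑ h ∈ H, (x h ^ q) ^ (2:ℝ) :=
      Finset.sum_congr rfl (fun h hh => by rw [← Real.rpow_mul (hx h hh), hr, mul_comm 2 q])
    have e3 : ∑ h ∈ H, y h ^ r = ∑ h ∈ H, (y h ^ q) ^ (2:ℝ) :=
      Finset.sum_congr rfl (fun h hh => by rw [← Real.rpow_mul (hy h hh), hr, mul_comm 2 q])
    rw [e1, e2, e3]
    exact h2
  have h0 : 0 ≤ ∑ h ∈ H, (x h * y h) ^ q :=
    Finset.sum_nonneg (fun h hh => Real.rpow_nonneg (mul_nonneg (hx h hh) (hy h hh)) _)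
  calc (∑ h ∈ H, (x h * y h) ^ q) ^ (1 / q)
      ≤ ((∑ h ∈ H, x h ^ r) ^ (1 / (2:ℝ)) * (∑ h ∈ H, y h ^ r) ^ (1 / (2:ℝ))) ^ (1 / q) :=
        Real.rpow_le_rpow h0 h1 (by positivity)
    _ = (∑ h ∈ H, x h ^ r) ^ (1 / r) * (∑ h ∈ H, y h ^ r) ^ (1 / r) := by
        rw [Real.mul_rpow (Real.rpow_nonneg hX _) (Real.rpow_nonneg hY _),
          ← Real.rpow_mul hX, ← Real.rpow_mul hY]
        have : 1 / (2:ℝ) * (1 / q) = 1 / r := by rw [hr]; field_simp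
        rw [this]

/-- The mean square is at most a quadratic form. -/
theorem sq_mean_le (v N m : ℕ) (b : Fin m → ℕ) (hb : ∀ j, b j ≤ N) :
    (∑ j, DD v N (b j) ^ 2) / m ≤ (1 / (2 * (N : ℝ) + 1)) ^ 2 *
      ∑ h ∈ range (2 * N + 1), ∑ h' ∈ range (2 * N + 1),
        ‖FF v N h‖ * ‖FF v N h'‖ * ‖bh b (df N (h, h'))‖ := by
  have h1 : (((∑ j, DD v N (b j) ^ 2) / m : ℝ) : ℂ) =
      ∑ x ∈ range (2 * N + 1) ×ˢ range (2 * N + 1), cf v N x * bh b (df N x) := by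
    rw [Complex.ofReal_div, Complex.ofReal_natCast, Complex.ofReal_sum,
      sum_congr rfl fun j _ => dd_sq v N (b j) (hb j), sum_comm, sum_div]
    refine sum_congr rfl fun x _ => ?_
    rw [← mul_sum]
    unfold bh
    ring
  have h2 : ((∑ j, DD v N (b j) ^ 2) / m : ℝ) = ‖(((∑ j, DD v N (b j) ^ 2) / m : ℝ) : ℂ)‖ := by
    rw [Complex.norm_real, Real.norm_eq_abs, abs_of_nonneg]
    exact div_nonneg (sum_nonneg fun i _ => sq_nonneg _) (Nat.cast_nonneg _)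
  have h5 : ‖(1 / (2 * (N : ℂ) + 1))‖ = 1 / (2 * (N : ℝ) + 1) := by
    have h6 : (1 / (2 * (N : ℂ) + 1)) = ((1 / (2 * (N : ℝ) + 1) : ℝ) : ℂ) := by
      push_cast
      rfl
    rw [h6, Complex.norm_real, Real.norm_eq_abs, abs_of_nonneg]
    positivity
  have h7 : ∀ x : ℕ × ℕ, ‖cf v N x‖ = (1 / (2 * (N : ℝ) + 1)) ^ 2 *
      (‖FF v N x.1‖ * ‖FF v N x.2‖) := by
    intro x
    unfold cf
    rw [norm_mul, norm_pow, h5, norm_mul, RCLike.norm_conj]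
  rw [h2, h1]
  refine (norm_sum_le _ _).trans (le_of_eq ?_)
  rw [sum_product, mul_sum]
  refine sum_congr rfl fun h _ => ?_
  rw [mul_sum]
  refine sum_congr rfl fun h' _ => ?_
  rw [norm_mul, h7]
  ring

/-- The norm of `FF` in the space dual to the kernel. -/
theorem ff_norm (s : ℕ) (hs : 1 ≤ s) (K ρ : ℝ) (hK : 0 ≤ K) (hρ : 0 < ρ) :
    ∃ v₀ : ℕ, ∀ v : ℕ, v₀ ≤ v → ∃ N₀ : ℕ, ∀ N : ℕ, N₀ ≤ N → ∀ q : ℝ, q * (4 * s - 1) = 4 * s →
      (∑ h ∈ range (2 * N + 1), ‖FF v N h‖ ^ q) ^ (2 / q) * K ^ (1 / (2 * s : ℝ)) ≤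
        ρ * (N : ℝ) ^ 4 := by
  have hs1 : (1 : ℝ) ≤ s := by exact_mod_cast hs
  have hs0 : (0 : ℝ) < s := by linarith
  have h41 : (0 : ℝ) < 4 * s - 1 := by linarith
  obtain ⟨δ, hδ⟩ : ∃ δ : ℝ, δ = 1 / (4 * s - 1) := ⟨_, rfl⟩
  have hδ0 : 0 < δ := by rw [hδ]; exact one_div_pos.2 h41
  obtain ⟨p, hp⟩ : ∃ p : ℝ, p = 2 + δ := ⟨_, rfl⟩
  obtain ⟨r, hr⟩ : ∃ r : ℝ, r = 2 + 2 * δ := ⟨_, rfl⟩
  have hr0 : 0 < r := by rw [hr]; linarith
  obtain ⟨C1, hC1, N1, h1⟩ := gh_moment p (by rw [hp]; linarith)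
  obtain ⟨C2, hC2, N2, h2⟩ := gh_moment r (by rw [hr]; linarith)
  obtain ⟨C3, hC3, h3⟩ := wlog
  obtain ⟨A, hA⟩ : ∃ A : ℝ, A = ((2 ^ δ * C1) ^ (1 / r) * C2 ^ (1 / r)) ^ 2 *
      K ^ (1 / (2 * s : ℝ)) := ⟨_, rfl⟩
  have hA0 : 0 ≤ A := by rw [hA]; positivity
  obtain ⟨v₀, hv₀⟩ := eventually_small (A * C3 ^ 4) (2 * (δ / r)) ρ (by positivity)
    (by positivity) hρ
  refine ⟨max v₀ 3, fun v hv => ?_⟩
  have hv3 : 3 ≤ v := (le_max_right _ _).trans hv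
  have hvv : v₀ ≤ v := (le_max_left _ _).trans hv
  have hvR : (0 : ℝ) < v := by exact_mod_cast (by omega : 0 < v)
  obtain ⟨N3, h4⟩ := sup_le v hv3
  refine ⟨max (max N1 N2) (max N3 1), fun N hN q hqs => ?_⟩
  have hq : q = 1 + δ := by
    have h5 : q = 4 * s / (4 * s - 1) := by
      rw [eq_div_iff h41.ne']
      exact hqs
    rw [h5, hδ]
    field_simp
    ring
  have hq0 : 0 < q := by rw [hq]; linarith
  have hrq : r = 2 * q := by rw [hr, hq]; ring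
  have hN1 : N1 ≤ N := (le_max_left _ _).trans ((le_max_left _ _).trans hN)
  have hN2 : N2 ≤ N := (le_max_right _ _).trans ((le_max_left _ _).trans hN)
  have hN3 : N3 ≤ N := (le_max_left _ _).trans ((le_max_right _ _).trans hN)
  have hN4 : 1 ≤ N := (le_max_right _ _).trans ((le_max_right _ _).trans hN)
  have hNR : (1 : ℝ) ≤ N := by exact_mod_cast hN4
  have hNR0 : (0 : ℝ) < N := by linarith
  have hκ : 1 ≤ kap v := one_le_kap v
  have hκ0 : 0 < kap v := by linarith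
  have hκ3 : kap v ≤ C3 * Real.log v := h3 v (by omega)
  have hX := root_X (r := r) (p := p) (δ := δ) (C := C1) (κ := kap v) (V := v) (n := N)
    (S := ∑ h ∈ range (2 * N + 1), ‖gh v N (fr N h)‖ ^ r) hδ0 hp hr hC1 hκ hvR hNR0
    (by positivity) (by
      refine (sup_rpow (range (2 * N + 1)) (fun h => ‖gh v N (fr N h)‖)
        (fun h _ => norm_nonneg _) (2 / v * N) p r (by rw [hp]; linarith)
        (by rw [hr, hp]; linarith) (fun h _ => h4 N hN3 _) (by positivity)).trans ?_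
      exact mul_le_mul_of_nonneg_left (h1 N hN1 v).1 (by positivity))
  have hY := root_Y (r := r) (C := C2) (κ := kap v) (n := N)
    (S := ∑ h ∈ range (2 * N + 1), ‖gp v N (fr N h)‖ ^ r) hr0 hC2 hκ hNR0
    (by positivity) (h2 N hN2 v).2
  have hFF : (∑ h ∈ range (2 * N + 1), ‖FF v N h‖ ^ q) ^ (1 / q) ≤
      ((2 ^ δ * C1) ^ (1 / r) * (v : ℝ) ^ (-(δ / r)) * N * kap v) *
        (C2 ^ (1 / r) * N * kap v) := by
    have e1 : ∀ h ∈ range (2 * N + 1), ‖FF v N h‖ ^ q =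
        (‖gh v N (fr N h)‖ * ‖gp v N (fr N h)‖) ^ q := by
      intro h _
      unfold FF
      rw [norm_mul]
    rw [sum_congr rfl e1]
    refine (cs_step (range (2 * N + 1)) (fun h => ‖gh v N (fr N h)‖)
      (fun h => ‖gp v N (fr N h)‖) (fun h _ => norm_nonneg _) (fun h _ => norm_nonneg _)
      q r hq0 hrq).trans ?_
    exact mul_le_mul hX hY (by positivity) (by positivity)
  have hFF2 : (∑ h ∈ range (2 * N + 1), ‖FF v N h‖ ^ q) ^ (2 / q) ≤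
      (((2 ^ δ * C1) ^ (1 / r) * (v : ℝ) ^ (-(δ / r)) * N * kap v) *
        (C2 ^ (1 / r) * N * kap v)) ^ 2 := by
    have e2 : (∑ h ∈ range (2 * N + 1), ‖FF v N h‖ ^ q) ^ (2 / q) =
        ((∑ h ∈ range (2 * N + 1), ‖FF v N h‖ ^ q) ^ (1 / q)) ^ 2 := by
      rw [← Real.rpow_natCast, ← Real.rpow_mul (by positivity)]
      congr 1
      push_cast
      ring
    rw [e2]
    exact pow_le_pow_left₀ (by positivity) hFF 2
  have hvv2 : ((v : ℝ) ^ (-(δ / r))) ^ 2 = (v : ℝ) ^ (-(2 * (δ / r))) := by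
    rw [← Real.rpow_natCast, ← Real.rpow_mul hvR.le]
    congr 1
    push_cast
    ring
  calc (∑ h ∈ range (2 * N + 1), ‖FF v N h‖ ^ q) ^ (2 / q) * K ^ (1 / (2 * s : ℝ))
      ≤ (((2 ^ δ * C1) ^ (1 / r) * (v : ℝ) ^ (-(δ / r)) * N * kap v) *
        (C2 ^ (1 / r) * N * kap v)) ^ 2 * K ^ (1 / (2 * s : ℝ)) :=
        mul_le_mul_of_nonneg_right hFF2 (by positivity)
    _ = A * kap v ^ 4 * (v : ℝ) ^ (-(2 * (δ / r))) * (N : ℝ) ^ 4 := by
        rw [hA, ← hvv2]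
        ring
    _ ≤ A * (C3 * Real.log v) ^ 4 * (v : ℝ) ^ (-(2 * (δ / r))) * (N : ℝ) ^ 4 := by
        have h5 : kap v ^ 4 ≤ (C3 * Real.log v) ^ 4 := pow_le_pow_left₀ hκ0.le hκ3 4
        refine mul_le_mul_of_nonneg_right (mul_le_mul_of_nonneg_right
          (mul_le_mul_of_nonneg_left h5 hA0) (by positivity)) (by positivity)
    _ = (A * C3 ^ 4 * (Real.log v) ^ 4) * (v : ℝ) ^ (-(2 * (δ / r))) * (N : ℝ) ^ 4 := by
        ring
    _ ≤ (ρ * (v : ℝ) ^ (2 * (δ / r))) * (v : ℝ) ^ (-(2 * (δ / r))) * (N : ℝ) ^ 4 := by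
        refine mul_le_mul_of_nonneg_right (mul_le_mul_of_nonneg_right (hv₀ v hvv)
          (by positivity)) (by positivity)
    _ = ρ * (N : ℝ) ^ 4 := by
        have h6 : (v : ℝ) ^ (2 * (δ / r)) * (v : ℝ) ^ (-(2 * (δ / r))) = 1 := by
          rw [← Real.rpow_add hvR, add_neg_cancel, Real.rpow_zero]
        rw [show (ρ * (v : ℝ) ^ (2 * (δ / r))) * (v : ℝ) ^ (-(2 * (δ / r))) * (N : ℝ) ^ 4 =
          ρ * ((v : ℝ) ^ (2 * (δ / r)) * (v : ℝ) ^ (-(2 * (δ / r)))) * (N : ℝ) ^ 4 by ring,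
          h6]
        ring

/-- The mean square of the deviation. -/
theorem sq_spec (s : ℕ) (hs : 1 ≤ s) (K ρ : ℝ) (hK : 0 ≤ K) (hρ : 0 < ρ) :
    ∃ c : ℝ, 0 < c ∧ ∃ v₀ : ℕ, ∀ v : ℕ, v₀ ≤ v → ∃ N₀ : ℕ, ∀ N : ℕ, N₀ ≤ N → ∀ (m : ℕ) (η : ℝ)
      (b : Fin m → ℕ), Spec s K η N m b → 0 ≤ η → η ≤ c / (Real.log N) ^ 2 →
      (∑ j, DD v N (b j) ^ 2) / m ≤ ρ * (N : ℝ) ^ 2 := by
  have hs1 : (1 : ℝ) ≤ s := by exact_mod_cast hs
  have h41 : (0 : ℝ) < 4 * s - 1 := by linarith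
  obtain ⟨v₀, h1⟩ := ff_norm s hs K (ρ / 2) hK (by positivity)
  refine ⟨ρ / 72, by positivity, v₀, fun v hv => ?_⟩
  obtain ⟨N₁, h2⟩ := h1 v hv
  obtain ⟨N₂, h3⟩ := l_one v
  refine ⟨max (max N₁ N₂) 3, fun N hN m η b hb hη0 hη => ?_⟩
  have hN1 : N₁ ≤ N := (le_max_left _ _).trans ((le_max_left _ _).trans hN)
  have hN2 : N₂ ≤ N := (le_max_right _ _).trans ((le_max_left _ _).trans hN)
  have hN3 : 3 ≤ N := (le_max_right _ _).trans hN
  have hN0 : (0 : ℝ) < N := by exact_mod_cast (by omega : 0 < N)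
  have hl : 0 < Real.log N := Real.log_pos (by exact_mod_cast (by omega : 1 < N))
  obtain ⟨q, hq⟩ : ∃ q : ℝ, q = 4 * s / (4 * s - 1) := ⟨_, rfl⟩
  have hqs : q * (4 * s - 1) = 4 * s := by rw [hq]; field_simp
  have h4 := quad b s N hs q K η hqs hη0 hb (range (2 * N + 1)) subset_rfl
    (fun h => ‖FF v N h‖) (fun _ _ => norm_nonneg _)
  have h5 := h2 N hN1 q hqs
  have h6 := h3 N hN2
  have h7 := (sq_mean_le v N m b (fun j => (hb.1 j).2)).trans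
    (mul_le_mul_of_nonneg_left (h4.trans (add_le_add_right h5 _))
      (by positivity : (0 : ℝ) ≤ (1 / (2 * (N : ℝ) + 1)) ^ 2))
  refine h7.trans ?_
  have h8 : (∑ h ∈ range (2 * N + 1), ‖FF v N h‖) ^ 2 ≤
      (6 * (2 * (N : ℝ) + 1) * (N * Real.log N)) ^ 2 :=
    pow_le_pow_left₀ (sum_nonneg fun _ _ => norm_nonneg _) h6 2
  have h9 : η * (∑ h ∈ range (2 * N + 1), ‖FF v N h‖) ^ 2 ≤
      (ρ / 2) * (N : ℝ) ^ 2 * (2 * (N : ℝ) + 1) ^ 2 := by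
    calc η * (∑ h ∈ range (2 * N + 1), ‖FF v N h‖) ^ 2
        ≤ (ρ / 72 / (Real.log N) ^ 2) * (6 * (2 * (N : ℝ) + 1) * (N * Real.log N)) ^ 2 :=
          mul_le_mul hη h8 (by positivity) (by positivity)
      _ = _ := by
          field_simp
          ring
  have h10 : (ρ / 2) * (N : ℝ) ^ 4 ≤ (ρ / 2) * (N : ℝ) ^ 2 * (2 * (N : ℝ) + 1) ^ 2 := by
    rw [show (ρ / 2) * (N : ℝ) ^ 4 = (ρ / 2) * (N : ℝ) ^ 2 * (N : ℝ) ^ 2 by ring]
    refine mul_le_mul_of_nonneg_left ?_ (by positivity)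
    exact pow_le_pow_left₀ hN0.le (by linarith) 2
  calc _ ≤ (1 / (2 * (N : ℝ) + 1)) ^ 2 * ((ρ / 2) * (N : ℝ) ^ 2 * (2 * (N : ℝ) + 1) ^ 2 +
        (ρ / 2) * (N : ℝ) ^ 2 * (2 * (N : ℝ) + 1) ^ 2) :=
        mul_le_mul_of_nonneg_left (add_le_add h9 h10) (by positivity)
    _ = ρ * (N : ℝ) ^ 2 := by
        field_simp
        ring

/-- The proportion of the members with a large deviation. -/
theorem dev_spec (s : ℕ) (hs : 1 ≤ s) (K ε lam : ℝ) (hK : 0 ≤ K) (hε : 0 < ε) (hlam : 0 < lam) :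
    ∃ c : ℝ, 0 < c ∧ ∃ v₀ : ℕ, ∀ v : ℕ, v₀ ≤ v → ∃ N₀ : ℕ, ∀ N : ℕ, N₀ ≤ N →
      ∀ (m : ℕ) (η : ℝ) (b : Fin m → ℕ), Spec s K η N m b → 0 ≤ η → η ≤ c / (Real.log N) ^ 2 →
      (((univ : Finset (Fin m)).filter (fun j => lam * N < |DD v N (b j)|)).card : ℝ) ≤ ε * m := by
  classical
  obtain ⟨c, hc, v₀, h⟩ := sq_spec s hs K (ε * lam ^ 2) hK (by positivity)
  refine ⟨c, hc, v₀, fun v hv => ?_⟩
  obtain ⟨N₁, h1⟩ := h v hv
  refine ⟨max N₁ 1, fun N hN m η b hb hη0 hη => ?_⟩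
  have hN1 : N₁ ≤ N := (le_max_left _ _).trans hN
  have hN3 : 1 ≤ N := (le_max_right _ _).trans hN
  have hN0 : (0 : ℝ) < N := by exact_mod_cast (by omega : 0 < N)
  have h3 := h1 N hN1 m η b hb hη0 hη
  rcases Nat.eq_zero_or_pos m with hm | hm
  · subst hm
    simp
  · have hm0 : (0 : ℝ) < m := by exact_mod_cast hm
    have h7 : ∑ j, DD v N (b j) ^ 2 ≤ (ε * lam ^ 2 * (N : ℝ) ^ 2) * m := by
      rw [← div_le_iff₀ hm0]
      exact h3
    set B : Finset (Fin m) := (univ : Finset (Fin m)).filter (fun j => lam * N < |DD v N (b j)|)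
      with hB
    have h8 : (B.card : ℝ) * (lam * N) ^ 2 ≤ ∑ j, DD v N (b j) ^ 2 := by
      calc (B.card : ℝ) * (lam * N) ^ 2 = ∑ _j ∈ B, (lam * (N : ℝ)) ^ 2 := by
            rw [Finset.sum_const, nsmul_eq_mul]
        _ ≤ ∑ j ∈ B, DD v N (b j) ^ 2 := by
            refine Finset.sum_le_sum fun j hj => ?_
            rw [hB, mem_filter] at hj
            rw [← sq_abs (DD v N (b j))]
            exact pow_le_pow_left₀ (by positivity) hj.2.le 2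
        _ ≤ _ := Finset.sum_le_sum_of_subset_of_nonneg (Finset.subset_univ _) fun j _ _ =>
            sq_nonneg _
    have h9 : (B.card : ℝ) * (lam * N) ^ 2 ≤ (ε * m) * (lam * N) ^ 2 := by
      calc (B.card : ℝ) * (lam * N) ^ 2 ≤ _ := h8.trans h7
        _ = _ := by ring
    exact le_of_mul_le_mul_right h9 (by positivity)

end Pool.Agent.Lib.MP_629a14_nt.Spc
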