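import Pool.Agent.Lib.MP_629a14_nt.Spc.Bad
import Pool.Agent.Lib.MP_629a14_nt.Spc.Dev
import Pool.Agent.Lib.MP_629a14_nt.En.Main

/-! The Hardy-Littlewood asymptotics for families with few large Fourier coefficients. -/

set_option autoImplicit false

namespace Pool.Agent.Lib.MP_629a14_nt.Spc

open Finset Pool.Agent.Lib.MP_629a14_nt Pool.Agent.Lib.MP_629a14_nt.Rob
  Pool.Agent.Lib.MP_629a14_nt.En Pool.Agent.Lib.MP_629a14_nt.Fc

theorem main (s : ℕ) (hs : 1 ≤ s) (K ε : ℝ) (hK : 0 ≤ K) (hε : 0 < ε) :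
    ∃ c : ℝ, 0 < c ∧ ∃ N₀ : ℕ, ∀ N : ℕ, N₀ ≤ N → ∀ (m : ℕ) (η : ℝ) (b : Fin m → ℕ),
      Spec s K η N m b → 0 ≤ η → η ≤ c / (Real.log N) ^ 2 →
      (((univ : Finset (Fin m)).filter (fun j =>
        Even (b j) ∧ ε * HL (b j) < |(r2 (b j) : ℝ) - HL (b j)|)).card : ℝ) ≤ ε * m := by
  classical
  set ρ : ℝ := ε / 4 with hρ
  have hρ0 : 0 < ρ := by positivity
  have htw := tw_pos
  obtain ⟨δ, hδ, hδ1, N1, hN1⟩ := small_spec s hs K (ε / 3) hK (by positivity)
  obtain ⟨τ, hτ, v1, hv1⟩ := sig_sing ρ hρ0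
  obtain ⟨v2, N2, hv2⟩ := bad_spec s hs K (ε / 3) τ hK (by positivity) hτ
  set lam : ℝ := ρ * (2 * tw) * δ with hlam
  have hlam0 : 0 < lam := by positivity
  obtain ⟨c, hc, v3, hv3⟩ := dev_spec s hs K (ε / 3) lam hK (by positivity) hlam0
  obtain ⟨v, hv⟩ : ∃ v : ℕ, v = max (max v1 v2) (max v3 2) := ⟨_, rfl⟩
  have hvv1 : v1 ≤ v := by rw [hv]; exact le_trans (le_max_left _ _) (le_max_left _ _)
  have hvv2 : v2 ≤ v := by rw [hv]; exact le_trans (le_max_right _ _) (le_max_left _ _)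
  have hvv3 : v3 ≤ v := by rw [hv]; exact le_trans (le_max_left _ _) (le_max_right _ _)
  have hvv4 : 2 ≤ v := by rw [hv]; exact le_trans (le_max_right _ _) (le_max_right _ _)
  obtain ⟨N3, hN3⟩ := hv3 v hvv3
  obtain ⟨C, hC, hnunu⟩ := nunu v hvv4
  obtain ⟨N4, hN4⟩ := log_compare δ ρ hδ hρ0
  obtain ⟨N5, hN5⟩ := exists_nat_ge (C / lam)
  have hlog : Filter.Tendsto (fun N : ℕ => Real.log N) Filter.atTop Filter.atTop :=
    Real.tendsto_log_atTop.comp tendsto_natCast_atTop_atTop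
  obtain ⟨N6, hN6⟩ := Filter.eventually_atTop.1
    (hlog.eventually_ge_atTop (max 1 (24 / ε)))
  refine ⟨min c 1, lt_min hc one_pos, max (max (max N1 N2) (max N3 N6)) (max N4 (max N5 1)),
    fun N hN m η b hspec hη0 hη => ?_⟩
  have hNN1 : N1 ≤ N := le_trans (le_trans (le_max_left _ _) (le_max_left _ _))
    (le_trans (le_max_left _ _) hN)
  have hNN2 : N2 ≤ N := le_trans (le_trans (le_max_right _ _) (le_max_left _ _))
    (le_trans (le_max_left _ _) hN)
  have hNN3 : N3 ≤ N := le_trans (le_trans (le_max_left _ _) (le_max_right _ _))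
    (le_trans (le_max_left _ _) hN)
  have hNNl : N6 ≤ N := le_trans (le_trans (le_max_right _ _) (le_max_right _ _))
    (le_trans (le_max_left _ _) hN)
  have hNN4 : N4 ≤ N := le_trans (le_trans (le_max_left _ _) (le_max_right _ _)) hN
  have hNN5 : N5 ≤ N := le_trans (le_trans (le_trans (le_max_left _ _) (le_max_right _ _))
    (le_max_right _ _)) hN
  have hNN6 : 1 ≤ N := le_trans (le_trans (le_trans (le_max_right _ _) (le_max_right _ _))
    (le_max_right _ _)) hN
  have hN0 : (0 : ℝ) < N := by exact_mod_cast hNN6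
  have hCN : C ≤ lam * N := by
    have h1 : C / lam ≤ N := hN5.trans (by exact_mod_cast hNN5)
    rw [div_le_iff₀ hlam0] at h1
    linarith
  obtain ⟨hl0, hl00⟩ := max_le_iff.1 (hN6 N hNNl)
  have hl2 : (0 : ℝ) < (Real.log N) ^ 2 := by positivity
  have hβ1 : η ≤ 1 / (Real.log N) ^ 2 :=
    hη.trans (div_le_div_of_nonneg_right (min_le_right _ _) hl2.le)
  have hβc : η ≤ c / (Real.log N) ^ 2 :=
    hη.trans (div_le_div_of_nonneg_right (min_le_left _ _) hl2.le)
  have hβ8 : η ≤ ε / 3 / 4 := by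
    refine hβ1.trans ?_
    have h1 : 24 / ε ≤ (Real.log N) ^ 2 := by nlinarith
    rw [div_le_iff₀ hε] at h1
    rw [div_le_iff₀ hl2]
    linarith
  have hb1 := hspec.1
  have hsmall := hN1 N hNN1 m η b hspec hη0 hβ8
  have hbad := hv2 v hvv2 N hNN2 m η b hspec hη0 hβ1
  have hmark := hN3 N hNN3 m η b hspec hη0 hβc
  -- the exceptional indices
  have hsub : (univ : Finset (Fin m)).filter
      (fun i => Even (b i) ∧ ε * HL (b i) < |(r2 (b i) : ℝ) - HL (b i)|) ⊆
      ((univ : Finset (Fin m)).filter (fun i => (b i : ℝ) < δ * N) ∪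
      (univ : Finset (Fin m)).filter (fun i =>
        τ < ∑ p ∈ (b i).primeFactors.filter (fun p => v < p), 1 / (p : ℝ))) ∪
      (univ : Finset (Fin m)).filter (fun i => lam * N < |DD v N (b i)|) := by
    intro i hi
    rw [mem_filter] at hi
    by_contra hcon
    rw [mem_union, mem_union, mem_filter, mem_filter, mem_filter] at hcon
    push Not at hcon
    obtain ⟨⟨h1, h2⟩, h3⟩ := hcon
    have h1 := h1 (mem_univ _)
    have h2 := h2 (mem_univ _)
    have h3 := h3 (mem_univ _)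
    obtain ⟨ha1, haN⟩ := hb1 i
    have hsing := sing_ge (b i)
    have hs0 : 0 < sing (b i) := by linarith
    have hsig := hv1 v hvv1 (b i) ha1 h2
    have hnn := hnunu (b i) hi.2.1.two_dvd
    obtain ⟨hl1, hl2, hl3⟩ := hN4 N hNN4 (b i) haN h1
    have ha0 : (0 : ℝ) < b i := by exact_mod_cast ha1
    have hlamx : lam * N ≤ ρ * ((b i : ℝ) * sing (b i)) := by
      calc lam * N = ρ * ((δ * N) * (2 * tw)) := by rw [hlam]; ring
        _ ≤ ρ * ((b i : ℝ) * sing (b i)) := by
            refine mul_le_mul_of_nonneg_left ?_ hρ0.le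
            exact mul_le_mul h1 hsing (by positivity) ha0.le
    have hkey : |(r2 (b i) : ℝ) * (Real.log N) ^ 2 - (b i : ℝ) * sing (b i)| ≤
        3 * ρ * ((b i : ℝ) * sing (b i)) := by
      have e : (r2 (b i) : ℝ) * (Real.log N) ^ 2 - (b i : ℝ) * sing (b i) =
          DD v N (b i) + (∑ m ∈ Ico 1 (b i), nu v m * nu v (b i - m) - (b i : ℝ) * sig v (b i)) +
            (b i : ℝ) * (sig v (b i) - sing (b i)) := by
        unfold DD
        rw [sum_sub_distrib, r2_eq]
        ring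
      rw [e]
      have e1 : |(b i : ℝ) * (sig v (b i) - sing (b i))| ≤ ρ * ((b i : ℝ) * sing (b i)) := by
        rw [abs_mul, abs_of_pos ha0]
        calc (b i : ℝ) * |sig v (b i) - sing (b i)| ≤ (b i : ℝ) * (ρ * sing (b i)) :=
              mul_le_mul_of_nonneg_left hsig ha0.le
          _ = _ := by ring
      have e2 := abs_add_three (DD v N (b i))
        (∑ m ∈ Ico 1 (b i), nu v m * nu v (b i - m) - (b i : ℝ) * sig v (b i))
        ((b i : ℝ) * (sig v (b i) - sing (b i)))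
      linarith
    have hfin := final_step hρ0.le hl1 hl2 hl3 (by positivity) hkey
    have e3 : HL (b i) = (b i : ℝ) * sing (b i) / (Real.log (b i)) ^ 2 := by
      unfold HL
      ring
    rw [← e3] at hfin
    have e4 : 4 * ρ = ε := by rw [hρ]; ring
    rw [e4] at hfin
    exact absurd hi.2.2 (not_lt.2 hfin)
  have hcard := card_le_card hsub
  have hc1 := card_union_le ((univ : Finset (Fin m)).filter (fun i => (b i : ℝ) < δ * N) ∪
      (univ : Finset (Fin m)).filter (fun i =>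
        τ < ∑ p ∈ (b i).primeFactors.filter (fun p => v < p), 1 / (p : ℝ)))
      ((univ : Finset (Fin m)).filter (fun i => lam * N < |DD v N (b i)|))
  have hc2 := card_union_le ((univ : Finset (Fin m)).filter (fun i => (b i : ℝ) < δ * N))
      ((univ : Finset (Fin m)).filter (fun i =>
        τ < ∑ p ∈ (b i).primeFactors.filter (fun p => v < p), 1 / (p : ℝ)))
  have hfin : (((univ : Finset (Fin m)).filter
      (fun i => Even (b i) ∧ ε * HL (b i) < |(r2 (b i) : ℝ) - HL (b i)|)).card : ℝ) ≤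
      (((univ : Finset (Fin m)).filter (fun i => (b i : ℝ) < δ * N)).card : ℝ) +
      (((univ : Finset (Fin m)).filter (fun i =>
        τ < ∑ p ∈ (b i).primeFactors.filter (fun p => v < p), 1 / (p : ℝ))).card : ℝ) +
      (((univ : Finset (Fin m)).filter (fun i => lam * N < |DD v N (b i)|)).card : ℝ) := by
    exact_mod_cast hcard.trans (hc1.trans (Nat.add_le_add_right hc2 _))
  linarith

end Pool.Agent.Lib.MP_629a14_nt.Spc
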