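import Pool.Agent.Lib.MP_629a14_nt.Spc.Ker
import Pool.Agent.Lib.MP_629a14_nt.Fc.Bad

/-! Small members and members with many large prime factors. -/

set_option autoImplicit false

namespace Pool.Agent.Lib.MP_629a14_nt.Spc

open Finset Pool.Agent.Lib.MP_629a14_nt Pool.Agent.Lib.MP_629a14_nt.Rob
  Pool.Agent.Lib.MP_629a14_nt.En Pool.Agent.Lib.MP_629a14_nt.Fc

private theorem root_bound {s : ℕ} (hs : 1 ≤ s) {x y : ℝ} (hx : 0 ≤ x) (hy : 0 ≤ y)
    (h : x ≤ y ^ (2 * s)) : x ^ (1 / (2 * s : ℝ)) ≤ y := by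
  have hs0 : (0 : ℝ) < s := by exact_mod_cast hs
  calc x ^ (1 / (2 * s : ℝ)) ≤ (y ^ (2 * s)) ^ (1 / (2 * s : ℝ)) :=
        Real.rpow_le_rpow hx h (by positivity)
    _ = y := by
        rw [← Real.rpow_natCast, ← Real.rpow_mul hy]
        push_cast
        rw [mul_one_div_cancel (by positivity), Real.rpow_one]

/-- The proportion of the small members. -/
theorem small_spec (s : ℕ) (hs : 1 ≤ s) (K ε : ℝ) (hK : 0 ≤ K) (hε : 0 < ε) :
    ∃ δ : ℝ, 0 < δ ∧ δ ≤ 1 ∧ ∃ N₀ : ℕ, ∀ N : ℕ, N₀ ≤ N → ∀ (m : ℕ) (η : ℝ) (b : Fin m → ℕ),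
      Spec s K η N m b → 0 ≤ η → η ≤ ε / 4 →
      (((univ : Finset (Fin m)).filter (fun j => (b j : ℝ) < δ * N)).card : ℝ) ≤ ε * m := by
  classical
  obtain ⟨δ, hδ⟩ : ∃ δ : ℝ, δ = min 1 ((ε / 4) ^ (2 * s) / (K + 1)) := ⟨_, rfl⟩
  have hδ0 : 0 < δ := by rw [hδ]; exact lt_min one_pos (by positivity)
  have hδ1 : δ ≤ 1 := by rw [hδ]; exact min_le_left _ _
  have hδ2 : (K + 1) * δ ≤ (ε / 4) ^ (2 * s) := by
    have : δ ≤ (ε / 4) ^ (2 * s) / (K + 1) := by rw [hδ]; exact min_le_right _ _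
    rw [le_div_iff₀ (by positivity)] at this
    linarith
  refine ⟨δ / 4, by positivity, by linarith, ⌈2 / δ⌉₊, fun N hN m η b hb hη hηε => ?_⟩
  have hN2 : 2 / δ ≤ N := (Nat.le_ceil _).trans (by exact_mod_cast hN)
  have hδN : 2 ≤ δ * N := by
    rw [div_le_iff₀ hδ0] at hN2
    linarith
  have hN0 : (0 : ℝ) ≤ N := by positivity
  obtain ⟨L, hLdef⟩ : ∃ L : ℕ, L = ⌊δ * (N : ℝ)⌋₊ := ⟨_, rfl⟩
  have hL1 : (L : ℝ) ≤ δ * N := by rw [hLdef]; exact Nat.floor_le (by positivity)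
  have hL2 : δ * N < L + 1 := by rw [hLdef]; exact Nat.lt_floor_add_one _
  have hLpos : 1 ≤ L := by
    have h3 : (0 : ℝ) < L := by linarith
    exact_mod_cast h3
  have hLN : L ≤ N := by
    have : (L : ℝ) ≤ N := hL1.trans (mul_le_of_le_one_left hN0 hδ1)
    exact_mod_cast this
  have h1 := ker_bound hs hη hb 1 L 0 le_rfl hLpos (by omega) (by omega)
    ((univ : Finset (Fin m)).filter (fun j => (b j : ℝ) < δ / 4 * N)) (by
      intro j hj
      have hj' := (mem_filter.1 hj).2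
      refine ⟨b j, by omega, ?_⟩
      have h2 : (2 : ℝ) * b j ≤ L := by linarith
      have h3 : 2 * b j ≤ L := by exact_mod_cast h2
      omega)
  have h2 : (K * (L / (2 * N + 1))) ^ (1 / (2 * s : ℝ)) ≤ ε / 4 := by
    refine root_bound hs (by positivity) (by positivity) (le_trans ?_ hδ2)
    have h3 : (L : ℝ) / (2 * N + 1) ≤ δ := by
      rw [div_le_iff₀ (by positivity)]
      nlinarith
    calc K * (L / (2 * N + 1)) ≤ K * δ := mul_le_mul_of_nonneg_left h3 hK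
      _ ≤ (K + 1) * δ := mul_le_mul_of_nonneg_right (by linarith) hδ0.le
  calc _ ≤ _ := h1
    _ ≤ 2 * (ε / 4 + ε / 4) * m := by
        refine mul_le_mul_of_nonneg_right ?_ (Nat.cast_nonneg _)
        linarith
    _ = ε * m := by ring

/-- The proportion of the multiples of `p`. -/
theorem div_spec {s : ℕ} (hs : 1 ≤ s) {K η : ℝ} (hη : 0 ≤ η) {N m : ℕ} {b : Fin m → ℕ}
    (hb : Spec s K η N m b) (p : ℕ) (hp : 1 ≤ p) (hpN : p ≤ N) :
    (((univ : Finset (Fin m)).filter (fun j => p ∣ b j)).card : ℝ) ≤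
      2 * (η + (K / p) ^ (1 / (2 * s : ℝ))) * m := by
  classical
  have hK : 0 ≤ K := le_trans (sum_nonneg fun _ _ => pow_nonneg (big_nonneg _ _ _) _) hb.2
  have hp0 : (0 : ℝ) < p := by exact_mod_cast hp
  have hdm : p * (N / p) ≤ N := Nat.mul_div_le N p
  have h1 := ker_bound hs hη hb p (N / p + 1) (N / p / 2) hp (Nat.le_add_left 1 _) (by
      rw [Nat.add_sub_cancel]
      exact hdm) ((Nat.mul_le_mul_left p (Nat.div_le_self _ _)).trans hdm)
    ((univ : Finset (Fin m)).filter (fun j => p ∣ b j)) (by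
      intro j hj
      obtain ⟨e, he⟩ := (mem_filter.1 hj).2
      refine ⟨e, he, ?_⟩
      have h2 := (hb.1 j).2
      rw [he] at h2
      have h3 : e ≤ N / p := by
        rw [Nat.le_div_iff_mul_le (by omega), mul_comm]
        exact h2
      omega)
  refine h1.trans (mul_le_mul_of_nonneg_right ?_ (Nat.cast_nonneg _))
  have h2 : ((N / p + 1 : ℕ) : ℝ) / (2 * N + 1) ≤ 1 / p := by
    rw [div_le_div_iff₀ (by positivity) hp0, one_mul]
    have h3 : (N / p + 1) * p ≤ 2 * N + 1 := by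
      have : (N / p) * p ≤ N := Nat.div_mul_le_self N p
      rw [add_mul, one_mul]
      omega
    exact_mod_cast h3
  have h3 : (K * (((N / p + 1 : ℕ) : ℝ) / (2 * N + 1))) ^ (1 / (2 * s : ℝ)) ≤
      (K / p) ^ (1 / (2 * s : ℝ)) := by
    refine Real.rpow_le_rpow (by positivity) ?_ (by positivity)
    rw [div_eq_mul_one_div K]
    exact mul_le_mul_of_nonneg_left h2 hK
  linarith

/-- tail of a convergent series -/
private theorem Bad_tail {θ δ : ℝ} (hθ : 0 < θ) (hδ : 0 < δ) :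
    ∃ v₀ : ℕ, ∀ T : Finset ℕ, (∀ n ∈ T, v₀ < n) → ∑ n ∈ T, (n : ℝ) ^ (-(1 + θ)) < δ := by
  have hs : Summable (fun n : ℕ => (n : ℝ) ^ (-(1 + θ))) :=
    Real.summable_nat_rpow.2 (by linarith)
  obtain ⟨S, hS⟩ := summable_iff_vanishing_norm.1 hs δ hδ
  refine ⟨S.sup id, fun T hT => ?_⟩
  have h1 : Disjoint T S := by
    rw [Finset.disjoint_left]
    intro n hn hnS
    have h2 := hT n hn
    have h3 : id n ≤ S.sup id := Finset.le_sup hnS
    simp only [id] at h3
    omega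
  exact lt_of_le_of_lt (le_abs_self _) (hS T h1)

/-- The average of `GG`. -/
theorem gg_spec (s : ℕ) (hs : 1 ≤ s) (K ρ : ℝ) (hK : 0 ≤ K) (hρ : 0 < ρ) :
    ∃ v₀ : ℕ, ∀ v : ℕ, v₀ ≤ v → ∀ (N m : ℕ) (η : ℝ) (b : Fin m → ℕ), Spec s K η N m b → 0 ≤ η →
      ∀ y : ℕ, y ≤ N → ∑ j, GG v y (b j) ≤ (ρ + 2 * η * y) * m := by
  classical
  have hs0 : (0 : ℝ) < s := by exact_mod_cast hs
  obtain ⟨θ, hθdef⟩ : ∃ θ : ℝ, θ = 1 / (2 * s : ℝ) := ⟨_, rfl⟩
  have hθ : 0 < θ := by rw [hθdef]; positivity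
  have hKθ : 0 ≤ K ^ θ := Real.rpow_nonneg hK _
  obtain ⟨v₀, hv₀⟩ := Bad_tail (δ := ρ / (2 * (K ^ θ + 1))) hθ (by positivity)
  refine ⟨v₀, fun v hv N m η b hb hη y hy => ?_⟩
  have h1 : ∑ j, GG v y (b j) =
      ∑ p ∈ pr v y, (((univ : Finset (Fin m)).filter (fun i => p ∣ b i)).card : ℝ) *
        (1 / (p : ℝ)) := by
    unfold GG
    rw [Finset.sum_comm]
    refine Finset.sum_congr rfl fun p _ => ?_
    rw [← Finset.sum_filter, Finset.sum_const, nsmul_eq_mul]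
  rw [h1]
  have h2 : ∀ p ∈ pr v y, (((univ : Finset (Fin m)).filter (fun i => p ∣ b i)).card : ℝ) *
      (1 / (p : ℝ)) ≤ (2 * η + 2 * K ^ θ * (p : ℝ) ^ (-(1 + θ))) * m := by
    intro p hp
    simp only [pr, mem_filter, mem_range] at hp
    obtain ⟨hpN, hpp, hvp⟩ := hp
    have hp0 : (0 : ℝ) < p := by exact_mod_cast hpp.pos
    have hp1 : 1 / (p : ℝ) ≤ 1 := by
      rw [div_le_one hp0]
      exact_mod_cast hpp.one_lt.le
    have h3 := div_spec hs hη hb p hpp.one_lt.le (by omega)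
    rw [← hθdef, Real.div_rpow hK hp0.le] at h3
    have h5 : (p : ℝ) ^ (-(1 + θ)) = (1 / (p : ℝ) ^ θ) * (1 / p) := by
      rw [show -(1 + θ) = -θ + (-1) by ring, Real.rpow_add hp0, Real.rpow_neg_one,
        Real.rpow_neg hp0.le, one_div, one_div]
    rw [h5]
    have hm0 : (0 : ℝ) ≤ m := Nat.cast_nonneg _
    calc _ ≤ (2 * (η + K ^ θ / (p : ℝ) ^ θ) * m) * (1 / (p : ℝ)) :=
          mul_le_mul_of_nonneg_right h3 (by positivity)
      _ = (2 * η * (1 / (p : ℝ)) + 2 * K ^ θ * (1 / (p : ℝ) ^ θ * (1 / p))) * m := by ring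
      _ ≤ (2 * η * 1 + 2 * K ^ θ * (1 / (p : ℝ) ^ θ * (1 / p))) * m := by
          refine mul_le_mul_of_nonneg_right ?_ hm0
          refine add_le_add ?_ le_rfl
          exact mul_le_mul_of_nonneg_left hp1 (by positivity)
      _ = _ := by ring
  refine (Finset.sum_le_sum h2).trans ?_
  rw [← sum_mul, sum_add_distrib, sum_const, nsmul_eq_mul, ← mul_sum]
  refine mul_le_mul_of_nonneg_right ?_ (Nat.cast_nonneg _)
  have h6 := (hv₀ (pr v y) (by
    intro n hn
    simp only [pr, mem_filter] at hn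
    omega)).le
  have h7 : 2 * K ^ θ * ∑ p ∈ pr v y, (p : ℝ) ^ (-(1 + θ)) ≤ ρ := by
    calc 2 * K ^ θ * ∑ p ∈ pr v y, (p : ℝ) ^ (-(1 + θ))
        ≤ 2 * K ^ θ * (ρ / (2 * (K ^ θ + 1))) := mul_le_mul_of_nonneg_left h6 (by positivity)
      _ = (K ^ θ / (K ^ θ + 1)) * ρ := by field_simp
      _ ≤ 1 * ρ := by
          refine mul_le_mul_of_nonneg_right ?_ hρ.le
          rw [div_le_one (by positivity)]
          linarith
      _ = ρ := one_mul _
  have h8 : (pr v y).card ≤ y := by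
    have : pr v y ⊆ Icc 1 y := by
      intro p hp
      simp only [pr, mem_filter, mem_range] at hp
      rw [mem_Icc]
      exact ⟨hp.2.1.one_lt.le, by omega⟩
    have := card_le_card this
    rwa [Nat.card_Icc, Nat.add_sub_cancel] at this
  have h9 : ((pr v y).card : ℝ) * (2 * η) ≤ 2 * η * y := by
    rw [mul_comm]
    exact mul_le_mul_of_nonneg_left (by exact_mod_cast h8) (by positivity)
  linarith

/-- The proportion of the members with many large prime factors. -/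
theorem bad_spec (s : ℕ) (hs : 1 ≤ s) (K ε τ : ℝ) (hK : 0 ≤ K) (hε : 0 < ε) (hτ : 0 < τ) :
    ∃ v₀ : ℕ, ∃ N₀ : ℕ, ∀ v : ℕ, v₀ ≤ v → ∀ N : ℕ, N₀ ≤ N → ∀ (m : ℕ) (η : ℝ)
      (b : Fin m → ℕ), Spec s K η N m b → 0 ≤ η → η ≤ 1 / (Real.log N) ^ 2 →
      (((univ : Finset (Fin m)).filter (fun j =>
        τ < ∑ p ∈ (b j).primeFactors.filter (fun p => v < p), 1 / (p : ℝ))).card : ℝ) ≤ ε * m := by
  classical
  obtain ⟨v₀, hv₀⟩ := gg_spec s hs K (ε * τ / 3) hK (by positivity)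
  -- choice of N
  have hlog : Filter.Tendsto (fun N : ℕ => Real.sqrt (Real.log N)) Filter.atTop Filter.atTop :=
    Filter.Tendsto.comp Real.tendsto_sqrt_atTop
      (Real.tendsto_log_atTop.comp tendsto_natCast_atTop_atTop)
  obtain ⟨N₁, hN₁⟩ := Filter.eventually_atTop.1
    ((hlog.eventually_ge_atTop (12 / (ε * τ))).and (hlog.eventually_ge_atTop 2))
  have hle : ∀ᶠ N : ℕ in Filter.atTop, (Real.log N) ^ (2 : ℝ) ≤ (N : ℝ) := by
    have h1 := (isLittleO_log_rpow_rpow_atTop 2 (zero_lt_one : (0:ℝ) < 1)).bound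
      (zero_lt_one : (0 : ℝ) < 1)
    have h2 := (tendsto_natCast_atTop_atTop (R := ℝ)).eventually h1
    filter_upwards [h2, Filter.eventually_ge_atTop 1] with N h3 h4
    have h5 : (1 : ℝ) ≤ N := by exact_mod_cast h4
    rw [Real.norm_eq_abs, Real.norm_eq_abs, Real.rpow_one, one_mul,
      abs_of_nonneg (by positivity : (0 : ℝ) ≤ (N : ℝ))] at h3
    exact (le_abs_self _).trans h3
  obtain ⟨N₂, hN₂⟩ := Filter.eventually_atTop.1 hle
  refine ⟨v₀, max (max N₁ N₂) 1, fun v hv N hN m η b hb hη0 hη => ?_⟩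
  obtain ⟨h1, h2⟩ := hN₁ N ((le_max_left _ _).trans ((le_max_left _ _).trans hN))
  have h3 := hN₂ N ((le_max_right _ _).trans ((le_max_left _ _).trans hN))
  set x : ℝ := Real.sqrt (Real.log N) with hx
  have hlogx : Real.log N = x ^ 2 := by
    rw [hx, Real.sq_sqrt]
    by_contra hcon
    push Not at hcon
    have h4 : x = 0 := by rw [hx]; exact Real.sqrt_eq_zero_of_nonpos hcon.le
    linarith
  have hx0 : 0 < x := by linarith
  obtain ⟨y, hy⟩ : ∃ y : ℕ, y = ⌊x ^ 3⌋₊ := ⟨_, rfl⟩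
  have hy1 : (y : ℝ) ≤ x ^ 3 := by rw [hy]; exact Nat.floor_le (by positivity)
  have hy2 : x ^ 3 < y + 1 := by rw [hy]; exact Nat.lt_floor_add_one _
  have hx3 : 8 ≤ x ^ 3 := by nlinarith [sq_nonneg x, mul_pos hx0 hx0]
  have hy3 : x ^ 3 / 2 ≤ y := by linarith
  have hy4 : 1 ≤ y := by
    have : (1 : ℝ) ≤ y := by linarith
    exact_mod_cast this
  have hyR : (0 : ℝ) < y := by linarith
  have hyN : y ≤ N := by
    have h4 : (y : ℝ) ≤ N := by
      refine hy1.trans (le_trans ?_ h3)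
      rw [Real.rpow_two, hlogx]
      nlinarith [pow_pos hx0 3]
    exact_mod_cast h4
  have hG := hv₀ v hv N m η b hb hη0 y hyN
  have hx1 : 1 / x ≤ ε * τ / 12 := by
    rw [div_le_div_iff₀ hx0 (by norm_num)]
    rw [div_le_iff₀ (by positivity)] at h1
    linarith
  have hβy : 2 * η * y ≤ ε * τ / 6 := by
    have h5 : η * y ≤ 1 / x := by
      calc η * y ≤ (1 / (Real.log N) ^ 2) * x ^ 3 := mul_le_mul hη hy1 hyR.le (by positivity)
        _ = 1 / x := by
            rw [hlogx]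
            field_simp
    linarith
  have hlarge : 2 * Real.log N / y ≤ ε * τ / 3 := by
    calc 2 * Real.log N / y ≤ 2 * Real.log N / (x ^ 3 / 2) := by
          refine div_le_div_of_nonneg_left ?_ (by positivity) hy3
          rw [hlogx]
          positivity
      _ = 4 * (1 / x) := by
          rw [hlogx]
          field_simp
          ring
      _ ≤ _ := by linarith
  rcases Nat.eq_zero_or_pos m with hm | hm
  · subst hm
    simp
  · have hm0 : (0 : ℝ) < m := by exact_mod_cast hm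
    have hGb : ∑ j, GG v y (b j) ≤ (ε * τ / 3 + ε * τ / 6) * m :=
      hG.trans (mul_le_mul_of_nonneg_right (by linarith) hm0.le)
    set B : Finset (Fin m) := (univ : Finset (Fin m)).filter (fun j =>
        τ < ∑ p ∈ (b j).primeFactors.filter (fun p => v < p), 1 / (p : ℝ)) with hB
    have h7 : (B.card : ℝ) * τ ≤ (ε * τ) * m := by
      calc (B.card : ℝ) * τ = ∑ _j ∈ B, τ := by rw [Finset.sum_const, nsmul_eq_mul]
        _ ≤ ∑ j ∈ B, (GG v y (b j) + ε * τ / 3) := by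
          refine Finset.sum_le_sum fun j hj => ?_
          rw [hB, mem_filter] at hj
          have h8 := split_sum v y (b j) (hb.1 j).1
          have h9 := large_primes N y (b j) (hb.1 j).1 (hb.1 j).2 hy4
          linarith [hj.2]
        _ ≤ ∑ j, (GG v y (b j) + ε * τ / 3) :=
          Finset.sum_le_sum_of_subset_of_nonneg (Finset.subset_univ _) fun j _ _ =>
            add_nonneg (GG_nonneg _ _ _) (by positivity)
        _ = ∑ j, GG v y (b j) + m * (ε * τ / 3) := by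
          rw [sum_add_distrib, sum_const, card_univ, Fintype.card_fin, nsmul_eq_mul]
        _ ≤ _ := by nlinarith [mul_pos (mul_pos hε hτ) hm0]
    have h8 : (B.card : ℝ) * τ ≤ (ε * m) * τ := by linarith
    exact le_of_mul_le_mul_right h8 hτ

end Pool.Agent.Lib.MP_629a14_nt.Spc
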