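import Pool.Agent.Lib.MP_629a14_nt.Spc.Tail
import Pool.Agent.Lib.MP_629a14_nt.Spc.Bad
import Pool.Agent.Lib.MP_629a14_nt.Transfer

/-! Structure of the number of representations along families with few large Fourier
coefficients. -/

set_option autoImplicit false

namespace Pool.Agent.Lib.MP_629a14_nt.Spc

open Finset Pool.Agent.Lib.MP_629a14_nt Pool.Agent.Lib.MP_629a14_nt.Rob
  Pool.Agent.Lib.MP_629a14_nt.En Pool.Agent.Lib.MP_629a14_nt.Fc

theorem struct (s : ℕ) (hs : 1 ≤ s) (K ε : ℝ) (hK : 0 ≤ K) (hε : 0 < ε) :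
    ∃ T : ℕ, ∃ c0 : ℝ, 0 < c0 ∧ ∃ N0 : ℕ, ∀ N : ℕ, N0 ≤ N → ∀ A B : Finset ℕ,
      (∀ p ∈ A, p.Prime) → (∀ p ∈ B, p.Prime) → ∃ F : ℕ → ℂ, Cx T F ∧
      ∀ (m : ℕ) (η : ℝ) (b : Fin m → ℕ), 0 ≤ η → η ≤ c0 / (Real.log N) ^ 2 → Spec s K η N m b →
        (((univ : Finset (Fin m)).filter
          (fun j => ε < ‖(RR A B (b j) : ℂ) - F (b j)‖)).card : ℝ) ≤ ε * m := by
  classical
  have htw := tw_pos
  obtain ⟨u, hu⟩ : ∃ u : ℝ, u = 1 / (2 * tw) := ⟨_, rfl⟩
  have hu0 : 0 < u := by rw [hu]; positivity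
  -- parameters
  obtain ⟨κ1, hκ10, _, M1, hM1⟩ := small_spec s hs K (ε / 3) hK (by positivity)
  obtain ⟨κ, hκ⟩ : ∃ κ : ℝ, κ = min κ1 (1 / 2) := ⟨_, rfl⟩
  have hκ0 : 0 < κ := by rw [hκ]; exact lt_min hκ10 (by norm_num)
  have hκ1 : κ < 1 := by
    rw [hκ]
    exact lt_of_le_of_lt (min_le_right _ _) (by norm_num)
  have hκa : κ ≤ κ1 := by rw [hκ]; exact min_le_left _ _
  obtain ⟨C0, hC0⟩ : ∃ C0 : ℝ, C0 = 18480 / tw := ⟨_, rfl⟩
  have hC00 : 0 < C0 := by rw [hC0]; positivity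
  obtain ⟨lam, hlam⟩ : ∃ lam : ℝ, lam = ε * κ / (8 * u) := ⟨_, rfl⟩
  have hlam0 : 0 < lam := by rw [hlam]; positivity
  have hlam1 : u / κ * lam = ε / 8 := by
    rw [hlam]
    field_simp
  obtain ⟨ρ, hρ⟩ : ∃ ρ : ℝ, ρ = ε * lam ^ 2 / 6 := ⟨_, rfl⟩
  have hρ0 : 0 < ρ := by rw [hρ]; positivity
  obtain ⟨W1, hW10, T1, hW1⟩ := decomp3 s hs K ρ hK hρ0
  obtain ⟨τ, hτ⟩ : ∃ τ : ℝ, τ = ε * κ / (8 * u * W1) := ⟨_, rfl⟩
  have hτ0 : 0 < τ := by rw [hτ]; positivity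
  have hτ1 : u / κ * (W1 * (2 * τ)) = ε / 4 := by
    rw [hτ]
    field_simp
    norm_num
  obtain ⟨v0, M3, hM3⟩ := bad_spec s hs K (ε / 3) τ hK (by positivity) hτ0
  obtain ⟨v, hv⟩ : ∃ v : ℕ, v = max v0 2 := ⟨_, rfl⟩
  have hv0 : v0 ≤ v := by rw [hv]; exact le_max_left _ _
  have hv2 : 2 ≤ v := by rw [hv]; exact le_max_right _ _
  obtain ⟨T2, hT2⟩ := cx_tv v
  obtain ⟨T3, hT3⟩ := inv_approx κ (ε / (4 * u * W1)) hκ0 hκ1.le (by positivity)
  obtain ⟨T, hT⟩ := exists_nat_ge (max ((T1 * T2 * T3 : ℕ) : ℝ) (‖(u : ℂ)‖ * (T1 * T2 * T3 : ℕ)))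
  obtain ⟨c0, hc0⟩ : ∃ c0 : ℝ, c0 = min (ε * lam ^ 2 / 24) (min 1 (ε / 12)) := ⟨_, rfl⟩
  have hc00 : 0 < c0 := by
    rw [hc0]
    exact lt_min (by positivity) (lt_min one_pos (by positivity))
  have hcl : c0 ≤ ε * lam ^ 2 / 24 := by rw [hc0]; exact min_le_left _ _
  have hc1 : c0 ≤ 1 := by rw [hc0]; exact (min_le_right _ _).trans (min_le_left _ _)
  have hcε : c0 ≤ ε / 3 / 4 := by
    have : c0 ≤ ε / 12 := by rw [hc0]; exact (min_le_right _ _).trans (min_le_right _ _)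
    linarith
  obtain ⟨γ, hγ⟩ : ∃ γ : ℝ, γ = ε / (4 * C0) := ⟨_, rfl⟩
  have hγ0 : 0 < γ := by rw [hγ]; positivity
  obtain ⟨ell, hell⟩ : ∃ ell : ℝ, ell = - Real.log κ := ⟨_, rfl⟩
  have hell0 : 0 < ell := by
    rw [hell]
    have := Real.log_neg hκ0 hκ1
    linarith
  obtain ⟨M4, hM4⟩ := eventual_facts lam (ell * (2 * (1 + γ) / γ)) 0 hlam0
  refine ⟨T, c0, hc00, max M1 (max M3 M4), fun N hN A B hA hB => ?_⟩
  have hN1 : M1 ≤ N := (le_max_left _ _).trans hN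
  have hN3 : M3 ≤ N := (le_max_left _ _).trans ((le_max_right _ _).trans hN)
  have hN4 : M4 ≤ N := (le_max_right _ _).trans ((le_max_right _ _).trans hN)
  obtain ⟨f1, _, f3, f4, f5⟩ := hM4 N hN4
  have hNr : (3 : ℝ) ≤ N := by exact_mod_cast f1
  have hNpos : (0 : ℝ) < N := by linarith
  have hNn : 0 < N := by omega
  obtain ⟨L, hLdef⟩ : ∃ L : ℝ, L = Real.log N := ⟨_, rfl⟩
  rw [← hLdef] at f4 f5
  have hL1 : 1 ≤ L := by
    rw [hLdef]
    have h1 : Real.exp 1 ≤ N := by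
      have := Real.exp_one_lt_d9
      linarith
    calc (1 : ℝ) = Real.log (Real.exp 1) := (Real.log_exp 1).symm
      _ ≤ Real.log N := Real.log_le_log (Real.exp_pos 1) h1
  have hL0 : 0 < L := by linarith
  -- the comparison of `L` and `log n`
  have hlogs : ∀ n ∈ Icc 1 N, κ * N ≤ n → L ^ 2 ≤ (1 + γ) * (Real.log n) ^ 2 := by
    intro n hn hkn
    have hn1 := (mem_Icc.1 hn).1
    have hnr : (0 : ℝ) < n := by exact_mod_cast hn1
    have h1 : L - ell ≤ Real.log n := by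
      calc L - ell = Real.log (κ * N) := by
            rw [Real.log_mul hκ0.ne' hNpos.ne', hLdef, hell]
            ring
        _ ≤ Real.log n := Real.log_le_log (by positivity) hkn
    have h2 : ell ≤ (γ / (2 * (1 + γ))) * L := by
      have h3 : ell * (2 * (1 + γ) / γ) * (γ / (2 * (1 + γ))) = ell := by
        field_simp
      calc ell = ell * (2 * (1 + γ) / γ) * (γ / (2 * (1 + γ))) := h3.symm
        _ ≤ L * (γ / (2 * (1 + γ))) := by gcongr
        _ = _ := mul_comm _ _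
    set e1 : ℝ := γ / (2 * (1 + γ)) with he1
    have he10 : 0 < e1 := by rw [he1]; positivity
    have he11 : e1 ≤ 1 / 2 := by
      rw [he1, div_le_div_iff₀ (by positivity) (by norm_num)]
      linarith
    have h3 : (1 - e1) * L ≤ Real.log n := by linarith
    have h4 : 0 ≤ (1 - e1) * L := mul_nonneg (by linarith) hL0.le
    have h5 : ((1 - e1) * L) ^ 2 ≤ (Real.log n) ^ 2 := pow_le_pow_left₀ h4 h3 2
    have h6 : 1 ≤ (1 + γ) * (1 - e1) ^ 2 := by
      have h7 : (1 + γ) * (1 - 2 * e1) = 1 := by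
        rw [he1]
        field_simp
        ring
      nlinarith [sq_nonneg e1]
    calc L ^ 2 = 1 * L ^ 2 := by ring
      _ ≤ ((1 + γ) * (1 - e1) ^ 2) * L ^ 2 := by gcongr
      _ = (1 + γ) * ((1 - e1) * L) ^ 2 := by ring
      _ ≤ (1 + γ) * (Real.log n) ^ 2 := by gcongr
  -- truncated sets
  obtain ⟨Q, hQ⟩ : ∃ Q : ℕ, Q = ⌊(N : ℝ) ^ (1 / 4 : ℝ)⌋₊ := ⟨_, rfl⟩
  have hQle : (Q : ℝ) ≤ (N : ℝ) ^ (1 / 4 : ℝ) := by
    rw [hQ]
    exact Nat.floor_le (Real.rpow_nonneg hNpos.le _)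
  set A' := A.filter (fun p => Q < p ∧ p ≤ N) with hA'
  set B' := B.filter (fun p => Q < p ∧ p ≤ N) with hB'
  have hA'p : ∀ p ∈ A', p.Prime ∧ Q < p ∧ p ≤ N := by
    intro p hp
    rw [hA', mem_filter] at hp
    exact ⟨hA p hp.1, hp.2.1, hp.2.2⟩
  have hB'p : ∀ p ∈ B', p.Prime ∧ Q < p ∧ p ≤ N := by
    intro p hp
    rw [hB', mem_filter] at hp
    exact ⟨hB p hp.1, hp.2.1, hp.2.2⟩
  have hAc := f3 A' (fun p hp => ⟨(hA'p p hp).1, (hA'p p hp).2.2⟩)
  have hBc := f3 B' (fun p hp => ⟨(hB'p p hp).1, (hB'p p hp).2.2⟩)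
  obtain ⟨s1, hs1, hs1c, hs2, hs3⟩ := hW1 N Q f1 hQ A' B' hA'p hB'p hAc hBc
  obtain ⟨q, hq1, hq2⟩ := hT3 N hNn
  have hFc : Cx T (fun n => (u : ℂ) * (s1 n * (tv v n : ℂ) * q n)) := by
    refine Cx.const_mul (u : ℂ) ((hs1c.mul hT2).mul hq1) ?_ ?_
    · exact_mod_cast (le_max_left _ _).trans hT
    · exact (le_max_right _ _).trans hT
  refine ⟨fun n => (u : ℂ) * (s1 n * (tv v n : ℂ) * q n), hFc, fun m η b hη0 hη hb => ?_⟩
  have hη1 : η ≤ c0 := by
    rw [← hLdef] at hη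
    exact hη.trans (div_le_self hc00.le (one_le_pow₀ hL1))
  have hη2 : η ≤ 1 / (Real.log N) ^ 2 := by
    exact hη.trans (div_le_div_of_nonneg_right hc1 (by positivity))
  have hbI : ∀ j, b j ∈ Icc 1 N := fun j => mem_Icc.2 (hb.1 j)
  -- exceptional indices
  have E1 : (((univ : Finset (Fin m)).filter (fun j => (b j : ℝ) < κ * N)).card : ℝ) ≤
      ε / 3 * m := by
    refine le_trans ?_ (hM1 N hN1 m η b hb hη0 (hη1.trans hcε))
    have h2 : (univ : Finset (Fin m)).filter (fun i => (b i : ℝ) < κ * N) ⊆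
        (univ : Finset (Fin m)).filter (fun i => (b i : ℝ) < κ1 * N) := by
      intro i hi
      rw [mem_filter] at hi ⊢
      exact ⟨hi.1, lt_of_lt_of_le hi.2 (mul_le_mul_of_nonneg_right hκa hNpos.le)⟩
    exact_mod_cast card_le_card h2
  have E2 := hM3 v hv0 N hN3 m η b hb hη0 hη2
  have E3 : (((univ : Finset (Fin m)).filter
      (fun j => lam < ‖(sf N A' B' (b j) : ℂ) - s1 (b j)‖)).card : ℝ) ≤ ε / 3 * m := by
    rcases Nat.eq_zero_or_pos m with hm | hm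
    · subst hm
      simp
    · have hm0 : (0 : ℝ) < m := by exact_mod_cast hm
      have h1 := hs3 m η b hb hη0
      have h2 : η * (2 * Real.log N) ^ 2 + ρ ≤ ε / 3 * lam ^ 2 := by
        rw [← hLdef] at hη ⊢
        have h3 : η * (2 * L) ^ 2 ≤ 4 * c0 := by
          calc η * (2 * L) ^ 2 ≤ (c0 / L ^ 2) * (2 * L) ^ 2 :=
                mul_le_mul_of_nonneg_right hη (by positivity)
            _ = 4 * c0 := by
                field_simp
                ring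
        rw [hρ]
        linarith
      have h3 := h1.trans h2
      rw [div_le_iff₀ hm0] at h3
      set Bd : Finset (Fin m) := (univ : Finset (Fin m)).filter
        (fun j => lam < ‖(sf N A' B' (b j) : ℂ) - s1 (b j)‖) with hBd
      have h4 : (Bd.card : ℝ) * lam ^ 2 ≤ ∑ j, ‖(sf N A' B' (b j) : ℂ) - s1 (b j)‖ ^ 2 := by
        calc (Bd.card : ℝ) * lam ^ 2 = ∑ _j ∈ Bd, lam ^ 2 := by rw [sum_const, nsmul_eq_mul]
          _ ≤ ∑ j ∈ Bd, ‖(sf N A' B' (b j) : ℂ) - s1 (b j)‖ ^ 2 := by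
              refine sum_le_sum fun j hj => ?_
              rw [hBd, mem_filter] at hj
              exact pow_le_pow_left₀ hlam0.le hj.2.le 2
          _ ≤ _ := sum_le_sum_of_subset_of_nonneg (subset_univ _) fun _ _ _ => by positivity
      have h5 : (Bd.card : ℝ) * lam ^ 2 ≤ (ε / 3 * m) * lam ^ 2 := by
        calc _ ≤ _ := h4.trans h3
          _ = _ := by ring
      exact le_of_mul_le_mul_right h5 (by positivity)
  -- the pointwise estimate
  have hsub : (univ : Finset (Fin m)).filter (fun j => ε < ‖(RR A B (b j) : ℂ) -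
      (u : ℂ) * (s1 (b j) * (tv v (b j) : ℂ) * q (b j))‖) ⊆
      ((univ : Finset (Fin m)).filter (fun j => (b j : ℝ) < κ * N) ∪
      (univ : Finset (Fin m)).filter (fun j =>
        τ < ∑ p ∈ (b j).primeFactors.filter (fun p => v < p), 1 / (p : ℝ))) ∪
      (univ : Finset (Fin m)).filter
        (fun j => lam < ‖(sf N A' B' (b j) : ℂ) - s1 (b j)‖) := by
    intro j hj
    rw [mem_filter] at hj
    by_contra hcon
    rw [mem_union, mem_union, mem_filter, mem_filter, mem_filter] at hcon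
    push Not at hcon
    obtain ⟨⟨h1, h2⟩, h3⟩ := hcon
    have h1 := h1 (mem_univ _)
    have h2 := h2 (mem_univ _)
    have h3 := h3 (mem_univ _)
    obtain ⟨n, hn⟩ : ∃ n : ℕ, n = b j := ⟨_, rfl⟩
    have hnI : n ∈ Icc 1 N := by rw [hn]; exact hbI j
    rw [← hn] at h1 h2 h3
    have hj2 := hj.2
    rw [← hn] at hj2
    have hn1 := (mem_Icc.1 hnI).1
    have hn2 := (mem_Icc.1 hnI).2
    have hnr : (0 : ℝ) < n := by exact_mod_cast hn1
    have hnN : (n : ℝ) ≤ N := by exact_mod_cast hn2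
    have htt0 := (tf_pos n).le
    have htt1 := tf_le_one n
    have hlog := hlogs n hnI h1
    have hln0 : 0 < Real.log n := by
      have h4 : 0 ≤ Real.log n := Real.log_nonneg (by exact_mod_cast hn1)
      rcases h4.eq_or_lt with h5 | h5
      · rw [← h5] at hlog
        rw [zero_pow (by norm_num), mul_zero] at hlog
        nlinarith
      · exact h5
    have hlL : Real.log n ≤ L := by
      rw [hLdef]
      exact Real.log_le_log hnr hnN
    have hR0 := RR_nonneg A B n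
    have hR1 : RR A B n ≤ C0 := by
      rw [hC0]
      exact RR_le hA hB hn1
    -- first step: the logarithm
    have hx : (N : ℝ) / n ≤ 1 / κ := by
      rw [div_le_div_iff₀ hnr hκ0]
      linarith
    have hx0 : 0 < (N : ℝ) / n := by positivity
    have hid : u * (sf N A B n * tf n) * ((N : ℝ) / n) =
        RR A B n * (L ^ 2 / (Real.log n) ^ 2) := by
      rw [RR_eq, hu]
      unfold sf
      rw [← hLdef]
      field_simp
    have s1' : |RR A B n - u * (sf N A B n * tf n) * ((N : ℝ) / n)| ≤ ε / 4 := by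
      rw [hid]
      have h4 : 1 ≤ L ^ 2 / (Real.log n) ^ 2 := by
        rw [one_le_div (by positivity)]
        exact pow_le_pow_left₀ hln0.le hlL 2
      have h5 : L ^ 2 / (Real.log n) ^ 2 ≤ 1 + γ := by
        rw [div_le_iff₀ (by positivity)]
        exact hlog
      have h6 : RR A B n - RR A B n * (L ^ 2 / (Real.log n) ^ 2) =
          -(RR A B n * (L ^ 2 / (Real.log n) ^ 2 - 1)) := by ring
      rw [h6, abs_neg, abs_of_nonneg (mul_nonneg hR0 (by linarith))]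
      calc RR A B n * (L ^ 2 / (Real.log n) ^ 2 - 1) ≤ C0 * γ :=
            mul_le_mul hR1 (by linarith) (by linarith) hC00.le
        _ = ε / 4 := by
            rw [hγ]
            field_simp
    -- second step: the truncation of the sets
    have g1 : sf N A' B' n ≤ sf N A B n := by
      unfold sf
      refine mul_le_mul_of_nonneg_left ?_ (by positivity)
      exact_mod_cast rep_mono' (filter_subset _ _) (filter_subset _ _) n
    have g2 : sf N A B n ≤ sf N A' B' n + lam := by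
      have h3 := rep_trunc hA hB (Q := Q) hn2
      rw [← hA', ← hB'] at h3
      unfold sf
      rw [← hLdef]
      calc L ^ 2 / N * (repAB A B n : ℝ) ≤ L ^ 2 / N * (repAB A' B' n + 2 * Q) := by gcongr
        _ ≤ L ^ 2 / N * (repAB A' B' n + 2 * (N : ℝ) ^ (1 / 4 : ℝ)) := by gcongr
        _ = L ^ 2 / N * (repAB A' B' n) + L ^ 2 / N * (2 * (N : ℝ) ^ (1 / 4 : ℝ)) := by ring
        _ ≤ _ := by linarith
    have g3 : ‖((sf N A B n - sf N A' B' n : ℝ) : ℂ)‖ ≤ lam := by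
      rw [Complex.norm_real, Real.norm_eq_abs, abs_of_nonneg (by linarith)]
      linarith
    have g4 : ‖s1 n‖ ≤ W1 := hs1.norm_le hnI
    have g5 : ‖((tf n - tv v n : ℝ) : ℂ)‖ ≤ 2 * τ := by
      rw [Complex.norm_real, Real.norm_eq_abs]
      refine (tf_sub_tv v n hv2 hn1).trans ?_
      linarith
    have g6 := hq2 n h1 hn2
    have g7 : ‖((tv v n : ℝ) : ℂ)‖ ≤ 1 := by
      rw [Complex.norm_real, Real.norm_eq_abs, abs_of_nonneg (tv_nonneg v n)]
      exact tv_le_one v n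
    have g8 : ‖((tf n : ℝ) : ℂ)‖ ≤ 1 := by
      rw [Complex.norm_real, Real.norm_eq_abs, abs_of_nonneg htt0]
      exact htt1
    have g9 : ‖(((N : ℝ) / n : ℝ) : ℂ)‖ ≤ 1 / κ := by
      rw [Complex.norm_real, Real.norm_eq_abs, abs_of_nonneg hx0.le]
      exact hx
    have gu : ‖(u : ℂ)‖ = u := by
      rw [Complex.norm_real, Real.norm_of_nonneg hu0.le]
    have hdec : (RR A B n : ℂ) - (u : ℂ) * (s1 n * (tv v n : ℂ) * q n) =
        ((RR A B n - u * (sf N A B n * tf n) * ((N : ℝ) / n) : ℝ) : ℂ) +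
        ((u : ℂ) * (((sf N A B n - sf N A' B' n : ℝ) : ℂ) * ((tf n : ℝ) : ℂ)) *
          (((N : ℝ) / n : ℝ) : ℂ) +
        ((u : ℂ) * (((sf N A' B' n : ℂ) - s1 n) * ((tf n : ℝ) : ℂ)) * (((N : ℝ) / n : ℝ) : ℂ) +
        ((u : ℂ) * (s1 n * ((tf n - tv v n : ℝ) : ℂ)) * (((N : ℝ) / n : ℝ) : ℂ) -
        (u : ℂ) * (s1 n * ((tv v n : ℝ) : ℂ)) * (q n - (((N : ℝ) / n : ℝ) : ℂ))))) := by
      push_cast
      ring
    have b1 : ‖((RR A B n - u * (sf N A B n * tf n) * ((N : ℝ) / n) : ℝ) : ℂ)‖ ≤ ε / 4 := by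
      rw [Complex.norm_real, Real.norm_eq_abs]
      exact s1'
    have b2 : ‖(u : ℂ) * (((sf N A B n - sf N A' B' n : ℝ) : ℂ) * ((tf n : ℝ) : ℂ)) *
          (((N : ℝ) / n : ℝ) : ℂ)‖ ≤ ε / 8 := by
      rw [norm_mul, norm_mul, norm_mul, gu]
      calc u * (‖((sf N A B n - sf N A' B' n : ℝ) : ℂ)‖ * ‖((tf n : ℝ) : ℂ)‖) *
            ‖(((N : ℝ) / n : ℝ) : ℂ)‖ ≤ u * (lam * 1) * (1 / κ) := by gcongr
        _ = u / κ * lam := by ring
        _ = ε / 8 := hlam1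
    have b3 : ‖(u : ℂ) * (((sf N A' B' n : ℂ) - s1 n) * ((tf n : ℝ) : ℂ)) *
        (((N : ℝ) / n : ℝ) : ℂ)‖ ≤ ε / 8 := by
      rw [norm_mul, norm_mul, norm_mul, gu]
      calc u * (‖(sf N A' B' n : ℂ) - s1 n‖ * ‖((tf n : ℝ) : ℂ)‖) *
            ‖(((N : ℝ) / n : ℝ) : ℂ)‖ ≤ u * (lam * 1) * (1 / κ) := by gcongr
        _ = u / κ * lam := by ring
        _ = ε / 8 := hlam1
    have b4 : ‖(u : ℂ) * (s1 n * ((tf n - tv v n : ℝ) : ℂ)) * (((N : ℝ) / n : ℝ) : ℂ)‖ ≤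
        ε / 4 := by
      rw [norm_mul, norm_mul, norm_mul, gu]
      calc u * (‖s1 n‖ * ‖((tf n - tv v n : ℝ) : ℂ)‖) *
            ‖(((N : ℝ) / n : ℝ) : ℂ)‖ ≤ u * (W1 * (2 * τ)) * (1 / κ) := by gcongr
        _ = u / κ * (W1 * (2 * τ)) := by ring
        _ = ε / 4 := hτ1
    have b5 : ‖(u : ℂ) * (s1 n * ((tv v n : ℝ) : ℂ)) * (q n - (((N : ℝ) / n : ℝ) : ℂ))‖ ≤
        ε / 4 := by
      rw [norm_mul, norm_mul, norm_mul, gu]
      calc u * (‖s1 n‖ * ‖((tv v n : ℝ) : ℂ)‖) * ‖q n - (((N : ℝ) / n : ℝ) : ℂ)‖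
          ≤ u * (W1 * 1) * (ε / (4 * u * W1)) := by gcongr
        _ = ε / 4 := by field_simp
    have hfin : ‖(RR A B n : ℂ) - (u : ℂ) * (s1 n * (tv v n : ℂ) * q n)‖ ≤ ε := by
      rw [hdec]
      refine (norm_add_le _ _).trans ?_
      refine (add_le_add b1 ((norm_add_le _ _).trans (add_le_add b2
        ((norm_add_le _ _).trans (add_le_add b3 ((norm_sub_le _ _).trans
          (add_le_add b4 b5))))))).trans (le_of_eq ?_)
      ring
    exact absurd hj2 (not_lt.2 hfin)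
  have hcard := card_le_card hsub
  have hc1 := card_union_le ((univ : Finset (Fin m)).filter (fun j => (b j : ℝ) < κ * N) ∪
      (univ : Finset (Fin m)).filter (fun j =>
        τ < ∑ p ∈ (b j).primeFactors.filter (fun p => v < p), 1 / (p : ℝ)))
      ((univ : Finset (Fin m)).filter
        (fun j => lam < ‖(sf N A' B' (b j) : ℂ) - s1 (b j)‖))
  have hc2 := card_union_le ((univ : Finset (Fin m)).filter (fun j => (b j : ℝ) < κ * N))
      ((univ : Finset (Fin m)).filter (fun j =>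
        τ < ∑ p ∈ (b j).primeFactors.filter (fun p => v < p), 1 / (p : ℝ)))
  have hfin : (((univ : Finset (Fin m)).filter (fun j => ε < ‖(RR A B (b j) : ℂ) -
      (u : ℂ) * (s1 (b j) * (tv v (b j) : ℂ) * q (b j))‖)).card : ℝ) ≤
      (((univ : Finset (Fin m)).filter (fun j => (b j : ℝ) < κ * N)).card : ℝ) +
      (((univ : Finset (Fin m)).filter (fun j =>
        τ < ∑ p ∈ (b j).primeFactors.filter (fun p => v < p), 1 / (p : ℝ))).card : ℝ) +
      (((univ : Finset (Fin m)).filter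
        (fun j => lam < ‖(sf N A' B' (b j) : ℂ) - s1 (b j)‖)).card : ℝ) := by
    exact_mod_cast hcard.trans (hc1.trans (Nat.add_le_add_right hc2 _))
  linarith

end Pool.Agent.Lib.MP_629a14_nt.Spc
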