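import Pool.Agent.Lib.MP_629a14_nt.Fc.TFun
import Pool.Agent.Lib.MP_629a14_nt.Fc.Bad

/-! Trigonometric polynomials of bounded complexity. -/

set_option autoImplicit false

namespace Pool.Agent.Lib.MP_629a14_nt.Spc

open Finset Pool.Agent.Lib.MP_629a14_nt Pool.Agent.Lib.MP_629a14_nt.Rob
  Pool.Agent.Lib.MP_629a14_nt.En Pool.Agent.Lib.MP_629a14_nt.Fc

/-- `F` is a sum of at most `T` characters with coefficients of absolute value at most `T`. -/
def Cx (T : ℕ) (F : ℕ → ℂ) : Prop :=
  ∃ (ι : Type) (_ : Fintype ι) (z : ι → ℂ) (θ : ι → ℝ), Fintype.card ι ≤ T ∧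
    (∀ i, ‖z i‖ ≤ T) ∧ ∀ n : ℕ, F n = ∑ i, z i * ee (θ i * n)

theorem Cx.mono {T T' : ℕ} {F : ℕ → ℂ} (h : Cx T F) (hT : T ≤ T') : Cx T' F := by
  obtain ⟨ι, i1, z, θ, h1, h2, h3⟩ := h
  exact ⟨ι, i1, z, θ, h1.trans hT, fun i => (h2 i).trans (by exact_mod_cast hT), h3⟩

theorem Cx.mul {T T' : ℕ} {F G : ℕ → ℂ} (hF : Cx T F) (hG : Cx T' G) :
    Cx (T * T') (fun n => F n * G n) := by
  obtain ⟨ι, i1, z, θ, h1, h2, h3⟩ := hF
  obtain ⟨κ, i2, w, φ, h4, h5, h6⟩ := hG
  refine ⟨ι × κ, inferInstance, fun x => z x.1 * w x.2, fun x => θ x.1 + φ x.2, ?_, ?_, ?_⟩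
  · rw [Fintype.card_prod]
    exact Nat.mul_le_mul h1 h4
  · intro x
    rw [norm_mul]
    push_cast
    exact mul_le_mul (h2 x.1) (h5 x.2) (norm_nonneg _) (Nat.cast_nonneg _)
  · intro n
    simp only [h3 n, h6 n, Fintype.sum_prod_type]
    rw [sum_mul_sum]
    refine sum_congr rfl fun i _ => sum_congr rfl fun j _ => ?_
    rw [add_mul, ee_add]
    ring

/-- Every finite trigonometric sum with bounded number of terms and bounded coefficients. -/
theorem Cx.of_sum (S : Finset ℕ) (z : ℕ → ℂ) (θ : ℕ → ℝ) {C1 C2 : ℝ} (h1 : (S.card : ℝ) ≤ C1)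
    (h2 : ∀ i ∈ S, ‖z i‖ ≤ C2) {T : ℕ} (hT1 : C1 ≤ T) (hT2 : C2 ≤ T) :
    Cx T (fun n => ∑ i ∈ S, z i * ee (θ i * n)) := by
  refine ⟨S, inferInstance, fun i => z i, fun i => θ i, ?_, ?_, ?_⟩
  · rw [Fintype.card_coe]
    exact_mod_cast h1.trans hT1
  · intro i
    exact (h2 i i.2).trans hT2
  · intro n
    exact (sum_coe_sort S (fun i => z i * ee (θ i * n))).symm

theorem Cx.const_mul {T : ℕ} {F : ℕ → ℂ} (c : ℂ) (hF : Cx T F) {T' : ℕ} (h1 : T ≤ T')
    (h2 : ‖c‖ * T ≤ T') : Cx T' (fun n => c * F n) := by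
  obtain ⟨ι, i1, z, θ, h3, h4, h5⟩ := hF
  refine ⟨ι, i1, fun i => c * z i, θ, h3.trans h1, fun i => ?_, fun n => ?_⟩
  · rw [norm_mul]
    exact (mul_le_mul_of_nonneg_left (h4 i) (norm_nonneg _)).trans h2
  · show c * F n = ∑ i, (c * z i) * ee (θ i * n)
    rw [h5, mul_sum]
    exact sum_congr rfl fun i _ => by ring

/-- The truncation of the reciprocal of the singular series. -/
theorem cx_tv (v : ℕ) : ∃ T : ℕ, Cx T (fun n => (tv v n : ℂ)) := by
  classical
  have key : ∀ S : Finset ℕ, (∀ p ∈ S, 2 < p) → ∃ T : ℕ,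
      Cx T (fun n => ((∏ p ∈ S, (1 - 1 / ((p : ℝ) - 1) * (if p ∣ n then 1 else 0)) : ℝ) : ℂ)) := by
    intro S
    induction S using Finset.induction_on with
    | empty =>
      intro _
      refine ⟨1, Unit, inferInstance, fun _ => 1, fun _ => 0, by simp, by simp, fun n => ?_⟩
      simp [ee_zero]
    | insert p S hp ih =>
      intro hS
      obtain ⟨T, h1⟩ := ih fun q hq => hS q (mem_insert_of_mem hq)
      have h2 := hS p (mem_insert_self p S)
      have hp1 : 1 ≤ p := by omega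
      have h4 : ∃ T' : ℕ, Cx T'
          (fun n => (((1 - 1 / ((p : ℝ) - 1) * (if p ∣ n then 1 else 0) : ℝ)) : ℂ)) := by
        refine ⟨p + 2, Option (Fin p), inferInstance,
          fun x => x.elim 1 (fun _ => -(((1 / ((p : ℝ) - 1) : ℝ) : ℂ) * (1 / (p : ℂ)))),
          fun x => x.elim 0 (fun h => (h : ℝ) / p), by simp, ?_, ?_⟩
        · intro x
          have hp0 : (3 : ℝ) ≤ p := by exact_mod_cast h2
          rcases x with _ | h
          · simp only [Option.elim]
            rw [norm_one]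
            push_cast
            linarith
          · simp only [Option.elim]
            have h5 := fac_mem h2
            rw [norm_neg, norm_mul, norm_div, norm_one, Complex.norm_natCast, Complex.norm_real,
              Real.norm_of_nonneg (by linarith [h5.2])]
            have h6 : 1 / ((p : ℝ) - 1) ≤ 1 := by linarith [h5.1]
            have h7 : 1 / (p : ℝ) ≤ 1 := by
              rw [div_le_one (by linarith)]
              linarith
            have h8 : 0 ≤ 1 / (p : ℝ) := by positivity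
            push_cast
            nlinarith [h5.2]
        · intro n
          rw [Fintype.sum_option]
          simp only [Option.elim]
          have h5 := ind_fourier p n hp1
          have h6 : (((1 - 1 / ((p : ℝ) - 1) * (if p ∣ n then 1 else 0) : ℝ)) : ℂ) =
              1 - ((1 / ((p : ℝ) - 1) : ℝ) : ℂ) * (((if p ∣ n then 1 else 0 : ℝ)) : ℂ) := by
            push_cast
            rfl
          rw [h6, h5, zero_mul, ee_zero, mul_one, sub_eq_add_neg, mul_sum, ← sum_neg_distrib,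
            ← Fin.sum_univ_eq_sum_range (fun h => -(((1 / ((p : ℝ) - 1) : ℝ) : ℂ) *
              (1 / (p : ℂ) * ee (n * ((h : ℝ) / p)))))]
          congr 1
          refine sum_congr rfl fun h _ => ?_
          rw [mul_comm (n : ℝ)]
          ring
      obtain ⟨T', h4⟩ := h4
      refine ⟨T' * T, ?_⟩
      have h5 := h4.mul h1
      have h6 : (fun n : ℕ => ((∏ q ∈ insert p S,
          (1 - 1 / ((q : ℝ) - 1) * (if q ∣ n then 1 else 0)) : ℝ) : ℂ)) =
          fun n : ℕ => (((1 - 1 / ((p : ℝ) - 1) * (if p ∣ n then 1 else 0) : ℝ)) : ℂ) *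
          ((∏ q ∈ S, (1 - 1 / ((q : ℝ) - 1) * (if q ∣ n then 1 else 0)) : ℝ) : ℂ) := by
        funext n
        rw [prod_insert hp, Complex.ofReal_mul]
      rw [h6]
      exact h5
  exact key (odp v) fun p hp => (mem_filter.1 hp).2.2

/-- Approximation of `1/x` by a trigonometric polynomial. -/
theorem inv_approx (κ ε : ℝ) (hκ : 0 < κ) (hκ1 : κ ≤ 1) (hε : 0 < ε) :
    ∃ T : ℕ, ∀ N : ℕ, 0 < N → ∃ q : ℕ → ℂ, Cx T q ∧
      ∀ n : ℕ, κ * N ≤ n → n ≤ N → ‖q n - (((N : ℝ) / n : ℝ) : ℂ)‖ ≤ ε := by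
  classical
  have : Fact ((0 : ℝ) < 2) := ⟨by norm_num⟩
  -- a continuous function on the circle of length 2
  let g0 : ℝ → ℂ := fun x => ((1 / max |x| κ : ℝ) : ℂ)
  have hg0 : Continuous g0 := by
    refine Complex.continuous_ofReal.comp ?_
    refine Continuous.div continuous_const (by fun_prop) fun x => ?_
    have : κ ≤ max |x| κ := le_max_right _ _
    linarith
  let g : C(AddCircle (2 : ℝ), ℂ) := ⟨AddCircle.liftIco 2 (-1) g0,
    AddCircle.liftIco_continuous (by
      show g0 (-1) = g0 (-1 + 2)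
      simp only [g0]
      norm_num) hg0.continuousOn⟩
  have hspan : g ∈ (Submodule.span ℂ (Set.range (@fourier 2))).topologicalClosure := by
    rw [span_fourier_closure_eq_top]
    trivial
  rw [← SetLike.mem_coe, Submodule.topologicalClosure_coe, Metric.mem_closure_iff] at hspan
  obtain ⟨f, hf, hfg⟩ := hspan ε hε
  rw [SetLike.mem_coe, Finsupp.mem_span_range_iff_exists_finsupp] at hf
  obtain ⟨c, hc⟩ := hf
  obtain ⟨C, hC⟩ : ∃ C : ℕ, ∀ i ∈ c.support, ‖c i‖ ≤ C := by
    obtain ⟨C, hC⟩ := exists_nat_ge (∑ i ∈ c.support, ‖c i‖)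
    exact ⟨C, fun i hi => (single_le_sum (f := fun i => ‖c i‖)
      (fun _ _ => norm_nonneg _) hi).trans hC⟩
  refine ⟨max c.support.card C, fun N hN => ⟨fun n => ∑ i ∈ c.support,
    c i * ee (((i : ℝ) / (2 * N)) * n), ⟨c.support, inferInstance, fun i => c i,
      fun i => ((i : ℤ) : ℝ) / (2 * N), ?_, ?_, ?_⟩, ?_⟩⟩
  · rw [Fintype.card_coe]
    exact le_max_left _ _
  · intro i
    exact (hC i i.2).trans (by exact_mod_cast le_max_right _ _)
  · intro n
    exact (sum_coe_sort c.support (fun i => c i * ee (((i : ℝ) / (2 * N)) * n))).symm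
  · intro n hn1 hn2
    have hN0 : (0 : ℝ) < N := by exact_mod_cast hN
    have hn0 : (0 : ℝ) < n := lt_of_lt_of_le (by positivity) hn1
    set x : ℝ := (n : ℝ) / N with hx
    have hx0 : κ ≤ x := by rw [hx, le_div_iff₀ hN0]; exact hn1
    have hx1 : x ≤ 1 := by rw [hx, div_le_one hN0]; exact_mod_cast hn2
    have h1 : dist (g (x : AddCircle (2 : ℝ))) (f (x : AddCircle (2 : ℝ))) ≤ dist g f :=
      ContinuousMap.dist_apply_le_dist _
    have hgx : g (x : AddCircle (2 : ℝ)) = (((N : ℝ) / n : ℝ) : ℂ) := by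
      have h2 : g0 x = (((N : ℝ) / n : ℝ) : ℂ) := by
        simp only [g0]
        rw [abs_of_pos (lt_of_lt_of_le hκ hx0), max_eq_left hx0, hx]
        congr 1
        field_simp
      rcases hx1.eq_or_lt with h3 | h3
      · have h4 : ((x : ℝ) : AddCircle (2 : ℝ)) = ((-1 : ℝ) : AddCircle (2 : ℝ)) := by
          have h5 := AddCircle.coe_add_period (2 : ℝ) (-1 : ℝ)
          rw [show (-1 : ℝ) + 2 = 1 by norm_num] at h5
          rw [h3]
          exact h5
        show AddCircle.liftIco 2 (-1) g0 (x : AddCircle (2 : ℝ)) = _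
        rw [h4, AddCircle.liftIco_coe_apply (by constructor <;> norm_num), ← h2, h3]
        simp only [g0]
        norm_num
      · show AddCircle.liftIco 2 (-1) g0 (x : AddCircle (2 : ℝ)) = _
        rw [AddCircle.liftIco_coe_apply (by constructor <;> linarith), h2]
    have hfx : f (x : AddCircle (2 : ℝ)) = ∑ i ∈ c.support, c i * ee (((i : ℝ) / (2 * N)) * n) := by
      rw [← hc]
      simp only [Finsupp.sum, ContinuousMap.coe_sum, Finset.sum_apply, ContinuousMap.coe_smul,
        Pi.smul_apply, smul_eq_mul]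
      refine sum_congr rfl fun i _ => ?_
      rw [fourier_coe_apply]
      unfold ee
      congr 2
      rw [hx]
      push_cast
      field_simp
    rw [hgx, hfx, Complex.dist_eq, norm_sub_rev] at h1
    exact h1.trans hfg.le

end Pool.Agent.Lib.MP_629a14_nt.Spc
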