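import Pool.Agent.Lib.MP_629a14_nt.Fc.Second

/-! Families with few large Fourier coefficients. -/

set_option autoImplicit false

namespace Pool.Agent.Lib.MP_629a14_nt.Spc

open Finset Pool.Agent.Lib.MP_629a14_nt Pool.Agent.Lib.MP_629a14_nt.Rob
  Pool.Agent.Lib.MP_629a14_nt.En Pool.Agent.Lib.MP_629a14_nt.Fc

/-- The average of `e(t b_j)`. -/
noncomputable def bh {m : ℕ} (b : Fin m → ℕ) (t : ℝ) : ℂ := (∑ j, ee (b j * t)) / (m : ℂ)

/-- `‖bh b t‖` if this is larger than `η`, and `0` otherwise. -/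
noncomputable def big {m : ℕ} (b : Fin m → ℕ) (η t : ℝ) : ℝ := if η < ‖bh b t‖ then ‖bh b t‖ else 0

/-- The hypothesis: a family of `m` integers in `[1, N]` whose Fourier coefficients larger than `η`
have a bounded sum of `2 s`-th powers. -/
def Spec (s : ℕ) (K η : ℝ) (N m : ℕ) (b : Fin m → ℕ) : Prop :=
  (∀ j, 1 ≤ b j ∧ b j ≤ N) ∧ ∑ h ∈ range (2 * N + 1), big b η (fr N h) ^ (2 * s) ≤ K

theorem big_nonneg {m : ℕ} (b : Fin m → ℕ) (η t : ℝ) : 0 ≤ big b η t := by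
  unfold big
  split_ifs
  · exact norm_nonneg _
  · exact le_rfl

theorem norm_le_big {m : ℕ} (b : Fin m → ℕ) {η : ℝ} (hη : 0 ≤ η) (t : ℝ) :
    ‖bh b t‖ ≤ η + big b η t := by
  unfold big
  split_ifs with h
  · linarith
  · push Not at h
    linarith

theorem bh_df {m : ℕ} (b : Fin m → ℕ) (N h h' : ℕ) (hh : h < 2 * N + 1) (hh' : h' < 2 * N + 1) :
    bh b (df N (h, h')) = bh b (fr N ((h' + (2 * N + 1 - h)) % (2 * N + 1))) := by
  unfold bh
  congr 1
  exact sum_congr rfl fun j _ => ee_df N (b j) h h' hh hh'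

theorem bh_neg {m : ℕ} (b : Fin m → ℕ) (t : ℝ) : ‖bh b (-t)‖ = ‖bh b t‖ := by
  have h : bh b (-t) = (starRingEnd ℂ) (bh b t) := by
    unfold bh
    rw [map_div₀, map_sum, Complex.conj_natCast]
    congr 1
    refine sum_congr rfl fun j _ => ?_
    rw [conj_ee]
    congr 1
    ring
  rw [h, RCLike.norm_conj]

theorem big_symm {m : ℕ} (b : Fin m → ℕ) (N : ℕ) (η : ℝ) (h h' : ℕ) :
    big b η (df N (h, h')) = big b η (df N (h', h)) := by
  have e : df N (h, h') = -(df N (h', h)) := by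
    unfold df
    ring
  unfold big
  rw [e, bh_neg]

theorem row {m : ℕ} (b : Fin m → ℕ) (s N : ℕ) (η : ℝ) (h : ℕ) (hh : h ∈ range (2 * N + 1)) :
    ∑ h' ∈ range (2 * N + 1), big b η (df N (h, h')) ^ (2 * s) =
      ∑ h' ∈ range (2 * N + 1), big b η (fr N h') ^ (2 * s) := by
  rw [mem_range] at hh
  rw [← sum_shift (fun l => big b η (fr N l) ^ (2 * s)) (2 * N + 1) h hh]
  refine sum_congr rfl fun h' hh' => ?_
  rw [mem_range] at hh'
  congr 1
  unfold big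
  rw [bh_df b N h h' hh hh']

theorem col {m : ℕ} (b : Fin m → ℕ) (s N : ℕ) (η : ℝ) (h' : ℕ) (hh' : h' ∈ range (2 * N + 1)) :
    ∑ h ∈ range (2 * N + 1), big b η (df N (h, h')) ^ (2 * s) =
      ∑ h ∈ range (2 * N + 1), big b η (fr N h) ^ (2 * s) := by
  rw [← row b s N η h' hh']
  exact sum_congr rfl fun h _ => by rw [big_symm]

/-- The quadratic form with kernel `bh`. -/
theorem quad {m : ℕ} (b : Fin m → ℕ) (s N : ℕ) (hs : 1 ≤ s) (q K η : ℝ)
    (hq : q * (4 * s - 1) = 4 * s) (hη : 0 ≤ η) (hb : Spec s K η N m b) (H : Finset ℕ)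
    (hH : H ⊆ range (2 * N + 1)) (F : ℕ → ℝ) (hF : ∀ h ∈ H, 0 ≤ F h) :
    ∑ h ∈ H, ∑ h' ∈ H, F h * F h' * ‖bh b (df N (h, h'))‖ ≤
      η * (∑ h ∈ H, F h) ^ 2 + (∑ h ∈ H, F h ^ q) ^ (2 / q) * K ^ (1 / (2 * s : ℝ)) := by
  have hK : 0 ≤ K := le_trans (sum_nonneg fun _ _ => pow_nonneg (big_nonneg _ _ _) _) hb.2
  have h1 : ∑ h ∈ H, ∑ h' ∈ H, F h * F h' * ‖bh b (df N (h, h'))‖ ≤
      ∑ h ∈ H, ∑ h' ∈ H, (F h * F h' * η + F h * F h' * big b η (df N (h, h'))) := by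
    refine sum_le_sum fun h hh => sum_le_sum fun h' hh' => ?_
    rw [← mul_add]
    exact mul_le_mul_of_nonneg_left (norm_le_big b hη _) (mul_nonneg (hF h hh) (hF h' hh'))
  refine h1.trans ?_
  simp_rw [sum_add_distrib]
  refine add_le_add (le_of_eq ?_) ?_
  · rw [sq, sum_mul_sum, mul_comm, sum_mul]
    refine sum_congr rfl fun h _ => ?_
    rw [sum_mul]
  · exact young H F (fun h h' => big b η (df N (h, h'))) s hs q K hq hF
      (fun _ _ _ _ => big_nonneg _ _ _) hK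
      (fun h hh => ((sum_le_sum_of_subset_of_nonneg hH
        fun _ _ _ => pow_nonneg (big_nonneg _ _ _) _).trans
        (le_of_eq (row b s N η h (hH hh)))).trans hb.2)
      (fun h hh => ((sum_le_sum_of_subset_of_nonneg hH
        fun _ _ _ => pow_nonneg (big_nonneg _ _ _) _).trans
        (le_of_eq (col b s N η h (hH hh)))).trans hb.2)

end Pool.Agent.Lib.MP_629a14_nt.Spc
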