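import Pool.Agent.Lib.MP_629a14_nt.Spc.Defs

/-! The number of members of a family in an arithmetic progression of multiples. -/

set_option autoImplicit false

namespace Pool.Agent.Lib.MP_629a14_nt.Spc

open Finset Pool.Agent.Lib.MP_629a14_nt Pool.Agent.Lib.MP_629a14_nt.Rob
  Pool.Agent.Lib.MP_629a14_nt.En Pool.Agent.Lib.MP_629a14_nt.Fc

/-- The nonnegative Fourier coefficients of the kernel. -/
noncomputable def kd (N d L h : ℕ) : ℝ :=
  (1 / ((L : ℝ) * (2 * N + 1))) * ‖∑ x ∈ range L, ee ((d * x : ℕ) * ((h : ℝ) / (2 * N + 1)))‖ ^ 2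

theorem kd_nonneg (N d L h : ℕ) : 0 ≤ kd N d L h := by
  unfold kd
  positivity

theorem kd_le (N d L h : ℕ) (hL : 1 ≤ L) : kd N d L h ≤ L / (2 * N + 1) := by
  have hL0 : (0 : ℝ) < L := by exact_mod_cast hL
  have h1 : ‖∑ x ∈ range L, ee ((d * x : ℕ) * ((h : ℝ) / (2 * N + 1)))‖ ≤ L := by
    refine (norm_sum_le _ _).trans ?_
    simp only [norm_ee, sum_const, card_range, nsmul_eq_mul, mul_one]
    exact le_rfl
  unfold kd
  have h2 : (1 / ((L : ℝ) * (2 * N + 1))) *
      ‖∑ x ∈ range L, ee ((d * x : ℕ) * ((h : ℝ) / (2 * N + 1)))‖ ^ 2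
      ≤ (1 / ((L : ℝ) * (2 * N + 1))) * (L : ℝ) ^ 2 := by
    refine mul_le_mul_of_nonneg_left ?_ (by positivity)
    exact pow_le_pow_left₀ (norm_nonneg _) h1 2
  refine h2.trans (le_of_eq ?_)
  field_simp

/-- The number of pairs with difference `n - d c`. -/
def pairs (d L c n : ℕ) : ℕ :=
  ((range L ×ˢ range L).filter (fun xy : ℕ × ℕ => d * xy.1 + d * c = n + d * xy.2)).card

theorem ker_fourier (N d L c n : ℕ) (hL : 1 ≤ L) (hdL : d * (L - 1) ≤ N)
    (hc : d * c ≤ N) (hn : n ≤ N) :
    ∑ h ∈ range (2 * N + 1), (kd N d L h : ℂ) * ee (((n : ℝ) - (d * c : ℕ)) * fr N h) =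
      (((pairs d L c n : ℝ) / L : ℝ) : ℂ) := by
  have hM : ((2 * N + 1 : ℕ) : ℝ) ≠ 0 := by positivity
  have hL0 : (L : ℂ) ≠ 0 := by exact_mod_cast (by omega : L ≠ 0)
  have h1 : ∀ h ∈ range (2 * N + 1), (kd N d L h : ℂ) * ee (((n : ℝ) - (d * c : ℕ)) * fr N h) =
      (1 / ((L : ℂ) * (2 * N + 1))) * ∑ x ∈ range L, ∑ y ∈ range L,
        ee ((h : ℝ) * ((((d * x : ℕ) : ℤ) - (d * y : ℕ) - (n - (d * c : ℕ)) : ℤ) : ℝ) /
          ((2 * N + 1 : ℕ) : ℝ)) := by
    intro h _
    unfold kd
    rw [Complex.ofReal_mul, Complex.ofReal_pow, ← Complex.mul_conj', map_sum, sum_mul_sum]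
    have e0 : (((1 / ((L : ℝ) * (2 * N + 1)) : ℝ)) : ℂ) = 1 / ((L : ℂ) * (2 * N + 1)) := by
      push_cast
      rfl
    rw [e0, mul_assoc, sum_mul]
    congr 1
    refine sum_congr rfl fun x _ => ?_
    rw [sum_mul]
    refine sum_congr rfl fun y _ => ?_
    rw [conj_ee, ← ee_add, ← ee_add]
    congr 1
    unfold fr
    push_cast
    ring
  rw [sum_congr rfl h1, ← mul_sum, sum_comm]
  have h2 : ∀ x ∈ range L, ∑ h ∈ range (2 * N + 1), ∑ y ∈ range L,
      ee ((h : ℝ) * ((((d * x : ℕ) : ℤ) - (d * y : ℕ) - (n - (d * c : ℕ)) : ℤ) : ℝ) /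
          ((2 * N + 1 : ℕ) : ℝ)) =
      ∑ y ∈ range L, if d * x + d * c = n + d * y then (2 * (N : ℂ) + 1) else 0 := by
    intro x hx
    rw [mem_range] at hx
    rw [sum_comm]
    refine sum_congr rfl fun y hy => ?_
    rw [mem_range] at hy
    have e3 : ∀ h ∈ range (2 * N + 1),
        ee ((h : ℝ) * ((((d * x : ℕ) : ℤ) - (d * y : ℕ) - (n - (d * c : ℕ)) : ℤ) : ℝ) /
          ((2 * N + 1 : ℕ) : ℝ)) =
        ee ((h : ℝ) * (((((d * x : ℕ) : ℤ) - (d * y : ℕ) - (n - (d * c : ℕ)) : ℤ) : ℝ) /
          ((2 * N + 1 : ℕ) : ℝ))) := fun h _ => by rw [mul_div_assoc]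
    rw [sum_congr rfl e3, sum_ee_range (2 * N + 1) (by omega)]
    have hx1 : d * x ≤ N := le_trans (Nat.mul_le_mul_left d (by omega)) hdL
    have hy1 : d * y ≤ N := le_trans (Nat.mul_le_mul_left d (by omega)) hdL
    by_cases hcase : d * x + d * c = n + d * y
    · rw [if_pos hcase, if_pos]
      · push_cast
        ring
      · have : ((d * x : ℕ) : ℤ) - (d * y : ℕ) - (n - (d * c : ℕ)) = 0 := by omega
        rw [this]
        exact dvd_zero _
    · rw [if_neg hcase, if_neg]
      intro hdvd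
      have h4 : ((d * x : ℕ) : ℤ) - (d * y : ℕ) - (n - (d * c : ℕ)) = 0 := by
        refine Int.eq_zero_of_abs_lt_dvd hdvd ?_
        rw [abs_lt]
        push_cast
        constructor
        · have a1 : (0 : ℤ) ≤ (d : ℤ) * x := by positivity
          have a2 : (0 : ℤ) ≤ (d : ℤ) * c := by positivity
          have a3 : (d : ℤ) * y ≤ N := by exact_mod_cast hy1
          have a4 : (n : ℤ) ≤ N := by exact_mod_cast hn
          linarith
        · have a1 : (0 : ℤ) ≤ (d : ℤ) * y := by positivity
          have a2 : (d : ℤ) * c ≤ N := by exact_mod_cast hc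
          have a3 : (d : ℤ) * x ≤ N := by exact_mod_cast hx1
          have a4 : (0 : ℤ) ≤ n := by positivity
          linarith
      apply hcase
      omega
  rw [sum_congr rfl h2, ← sum_product', ← sum_filter, sum_const, nsmul_eq_mul]
  have hN : (2 * (N : ℂ) + 1) ≠ 0 := by
    have : ((2 * N + 1 : ℕ) : ℂ) ≠ 0 := Nat.cast_ne_zero.2 (by omega)
    push_cast at this
    exact this
  unfold pairs
  push_cast
  field_simp

theorem pairs_ge (d L c e : ℕ) (h : 2 * (max e c - min e c) ≤ L) :
    L ≤ 2 * pairs d L c (d * e) := by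
  have key : L - (max e c - min e c) ≤ pairs d L c (d * e) := by
    unfold pairs
    rcases le_total c e with hce | hce
    · rw [max_eq_left hce, min_eq_right hce]
      have : (range (L - (e - c))).card ≤ _ := card_le_card_of_injOn (s := range (L - (e - c)))
        (t := (range L ×ˢ range L).filter
          (fun xy : ℕ × ℕ => d * xy.1 + d * c = d * e + d * xy.2))
        (fun y => (y + (e - c), y)) (by
          intro y hy
          have hy' := mem_range.1 (mem_coe.1 hy)
          rw [mem_coe, mem_filter, mem_product, mem_range, mem_range]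
          refine ⟨⟨by simp only; omega, by simp only; omega⟩, ?_⟩
          simp only
          rw [← mul_add, ← mul_add]
          congr 1
          omega) (by
          intro y _ z _ hyz
          exact (Prod.mk.inj hyz).2)
      rwa [card_range] at this
    · rw [max_eq_right hce, min_eq_left hce]
      have : (range (L - (c - e))).card ≤ _ := card_le_card_of_injOn (s := range (L - (c - e)))
        (t := (range L ×ˢ range L).filter
          (fun xy : ℕ × ℕ => d * xy.1 + d * c = d * e + d * xy.2))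
        (fun x => (x, x + (c - e))) (by
          intro y hy
          have hy' := mem_range.1 (mem_coe.1 hy)
          rw [mem_coe, mem_filter, mem_product, mem_range, mem_range]
          refine ⟨⟨by simp only; omega, by simp only; omega⟩, ?_⟩
          simp only
          rw [← mul_add, ← mul_add]
          congr 1
          omega) (by
          intro y _ z _ hyz
          exact (Prod.mk.inj hyz).1)
      rwa [card_range] at this
  omega

theorem pairs_le (d L c n : ℕ) (hd : 1 ≤ d) : pairs d L c n ≤ L := by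
  unfold pairs
  have : ((range L ×ˢ range L).filter (fun xy : ℕ × ℕ => d * xy.1 + d * c = n + d * xy.2)).card ≤
      (range L).card := by
    refine card_le_card_of_injOn (fun xy => xy.2) ?_ ?_
    · intro xy hxy
      have := mem_filter.1 (mem_coe.1 hxy)
      exact mem_coe.2 (mem_product.1 this.1).2
    · intro x hx y hy hxy
      have h1 := (mem_filter.1 (mem_coe.1 hx)).2
      have h2 := (mem_filter.1 (mem_coe.1 hy)).2
      simp only at hxy
      rw [hxy] at h1
      have h3 : d * x.1 = d * y.1 := by omega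
      have h4 := Nat.eq_of_mul_eq_mul_left (by omega) h3
      exact Prod.ext h4 hxy
  rwa [card_range] at this

theorem kd_sum (N d L : ℕ) (hd : 1 ≤ d) (hL : 1 ≤ L) (hdL : d * (L - 1) ≤ N) :
    ∑ h ∈ range (2 * N + 1), kd N d L h = 1 := by
  have h1 := ker_fourier N d L 0 0 hL hdL (by omega) (Nat.zero_le _)
  have hL0 : (L : ℝ) ≠ 0 := by exact_mod_cast (by omega : L ≠ 0)
  have h2 : pairs d L 0 0 = L := by
    refine le_antisymm (pairs_le d L 0 0 hd) ?_
    unfold pairs
    have : (range L).card ≤ ((range L ×ˢ range L).filter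
        (fun xy : ℕ × ℕ => d * xy.1 + d * 0 = 0 + d * xy.2)).card := by
      refine card_le_card_of_injOn (fun x => (x, x)) ?_ ?_
      · intro x hx
        rw [mem_coe, mem_filter, mem_product]
        exact ⟨⟨hx, hx⟩, by simp⟩
      · intro x _ y _ hxy
        exact (Prod.mk.inj hxy).1
    rwa [card_range] at this
  rw [h2, div_self hL0] at h1
  have h3 : ((∑ h ∈ range (2 * N + 1), kd N d L h : ℝ) : ℂ) = 1 := by
    rw [Complex.ofReal_sum, ← Complex.ofReal_one, ← h1]
    refine sum_congr rfl fun h _ => ?_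
    have : ((0 : ℕ) : ℝ) - ((d * 0 : ℕ) : ℝ) = 0 := by simp
    rw [this, zero_mul, ee_zero, mul_one]
  exact_mod_cast h3

/-- The proportion of the members of `b` which are multiples of `d` and not far from `d c`. -/
theorem ker_bound {s : ℕ} (hs : 1 ≤ s) {K η : ℝ} (hη : 0 ≤ η) {N m : ℕ} {b : Fin m → ℕ}
    (hb : Spec s K η N m b) (d L c : ℕ) (hd : 1 ≤ d) (hL : 1 ≤ L) (hdL : d * (L - 1) ≤ N)
    (hc : d * c ≤ N) (E : Finset (Fin m))
    (hE : ∀ j ∈ E, ∃ e : ℕ, b j = d * e ∧ 2 * (max e c - min e c) ≤ L) :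
    (E.card : ℝ) ≤ 2 * (η + (K * (L / (2 * N + 1))) ^ (1 / (2 * s : ℝ))) * m := by
  classical
  have hK : 0 ≤ K := le_trans (sum_nonneg fun _ _ => pow_nonneg (big_nonneg _ _ _) _) hb.2
  rcases Nat.eq_zero_or_pos m with hm | hm
  · subst hm
    have : E = ∅ := by
      rw [Finset.eq_empty_iff_forall_notMem]
      intro j
      exact j.elim0
    rw [this]
    simp
  have hm0 : (0 : ℝ) < m := by exact_mod_cast hm
  have hL0 : (0 : ℝ) < L := by exact_mod_cast hL
  have hs0 : (0 : ℝ) < s := by exact_mod_cast hs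
  -- lower bound
  have h1 : (E.card : ℝ) * (1 / 2) ≤ ∑ j, (pairs d L c (b j) : ℝ) / L := by
    calc (E.card : ℝ) * (1 / 2) = ∑ _j ∈ E, (1 / 2 : ℝ) := by rw [sum_const, nsmul_eq_mul]
      _ ≤ ∑ j ∈ E, (pairs d L c (b j) : ℝ) / L := by
          refine sum_le_sum fun j hj => ?_
          obtain ⟨e, he, h2⟩ := hE j hj
          have h3 := pairs_ge d L c e h2
          rw [he, le_div_iff₀ hL0]
          have h4 : (L : ℝ) ≤ 2 * pairs d L c (d * e) := by exact_mod_cast h3
          linarith
      _ ≤ _ := sum_le_sum_of_subset_of_nonneg (subset_univ _) fun _ _ _ => by positivity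
  -- upper bound
  have h2 : (∑ j, (pairs d L c (b j) : ℝ) / L) / m ≤
      ∑ h ∈ range (2 * N + 1), kd N d L h * ‖bh b (fr N h)‖ := by
    have e1 : (((∑ j, (pairs d L c (b j) : ℝ) / L) / m : ℝ) : ℂ) =
        ∑ h ∈ range (2 * N + 1), (kd N d L h : ℂ) * (ee (-((d * c : ℕ) * fr N h)) *
          bh b (fr N h)) := by
      rw [Complex.ofReal_div, Complex.ofReal_sum, Complex.ofReal_natCast]
      have e2 : ∀ j, (((pairs d L c (b j) : ℝ) / L : ℝ) : ℂ) =
          ∑ h ∈ range (2 * N + 1), (kd N d L h : ℂ) * ee (((b j : ℝ) - (d * c : ℕ)) * fr N h) :=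
        fun j => (ker_fourier N d L c (b j) hL hdL hc (hb.1 j).2).symm
      rw [sum_congr rfl fun j _ => e2 j, sum_comm, sum_div]
      refine sum_congr rfl fun h _ => ?_
      have e4 : ∑ j, (kd N d L h : ℂ) * ee (((b j : ℝ) - (d * c : ℕ)) * fr N h) =
          (kd N d L h : ℂ) * (ee (-((d * c : ℕ) * fr N h)) * ∑ j, ee (b j * fr N h)) := by
        rw [mul_sum, mul_sum]
        refine sum_congr rfl fun j _ => ?_
        rw [← ee_add]
        congr 2
        ring
      rw [e4]
      unfold bh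
      ring
    have e3 : (∑ j, (pairs d L c (b j) : ℝ) / L) / m =
        ‖(((∑ j, (pairs d L c (b j) : ℝ) / L) / m : ℝ) : ℂ)‖ := by
      rw [Complex.norm_real, Real.norm_eq_abs, abs_of_nonneg]
      positivity
    rw [e3, e1]
    refine (norm_sum_le _ _).trans (le_of_eq ?_)
    refine sum_congr rfl fun h _ => ?_
    rw [norm_mul, norm_mul, norm_ee, one_mul, Complex.norm_real, Real.norm_eq_abs,
      abs_of_nonneg (kd_nonneg N d L h)]
  have hsum := kd_sum N d L hd hL hdL
  have h3 : ∑ h ∈ range (2 * N + 1), kd N d L h * ‖bh b (fr N h)‖ ≤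
      η + (K * (L / (2 * N + 1))) ^ (1 / (2 * s : ℝ)) := by
    calc ∑ h ∈ range (2 * N + 1), kd N d L h * ‖bh b (fr N h)‖
        ≤ ∑ h ∈ range (2 * N + 1), (kd N d L h * η + kd N d L h * big b η (fr N h)) := by
          refine sum_le_sum fun h _ => ?_
          rw [← mul_add]
          exact mul_le_mul_of_nonneg_left (norm_le_big b hη _) (kd_nonneg N d L h)
      _ = η + ∑ h ∈ range (2 * N + 1), kd N d L h * big b η (fr N h) := by
          rw [sum_add_distrib, ← sum_mul, hsum, one_mul]
      _ ≤ _ := by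
          refine add_le_add le_rfl ?_
          have h5 := Real.pow_arith_mean_le_arith_mean_pow (range (2 * N + 1)) (kd N d L)
            (fun h => big b η (fr N h)) (fun h _ => kd_nonneg N d L h) hsum
            (fun h _ => big_nonneg b η _) (2 * s)
          have h6 : ∑ h ∈ range (2 * N + 1), kd N d L h * big b η (fr N h) ^ (2 * s) ≤
              K * (L / (2 * N + 1)) := by
            calc ∑ h ∈ range (2 * N + 1), kd N d L h * big b η (fr N h) ^ (2 * s)
                ≤ ∑ h ∈ range (2 * N + 1), (L / (2 * N + 1)) * big b η (fr N h) ^ (2 * s) :=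
                  sum_le_sum fun h _ => mul_le_mul_of_nonneg_right (kd_le N d L h hL)
                    (pow_nonneg (big_nonneg _ _ _) _)
              _ = (L / (2 * N + 1)) * ∑ h ∈ range (2 * N + 1), big b η (fr N h) ^ (2 * s) := by
                  rw [mul_sum]
              _ ≤ (L / (2 * N + 1)) * K := mul_le_mul_of_nonneg_left hb.2 (by positivity)
              _ = _ := mul_comm _ _
          have h7 : 0 ≤ ∑ h ∈ range (2 * N + 1), kd N d L h * big b η (fr N h) :=
            sum_nonneg fun h _ => mul_nonneg (kd_nonneg N d L h) (big_nonneg b η _)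
          have h8 : ((∑ h ∈ range (2 * N + 1), kd N d L h * big b η (fr N h)) ^ (2 * s)) ^
              (1 / (2 * s : ℝ)) = ∑ h ∈ range (2 * N + 1), kd N d L h * big b η (fr N h) := by
            rw [← Real.rpow_natCast, ← Real.rpow_mul h7]
            push_cast
            rw [mul_one_div_cancel (by positivity), Real.rpow_one]
          rw [← h8]
          exact Real.rpow_le_rpow (pow_nonneg h7 _) (h5.trans h6) (by positivity)
  have h4 : (∑ j, (pairs d L c (b j) : ℝ) / L) ≤
      (η + (K * (L / (2 * N + 1))) ^ (1 / (2 * s : ℝ))) * m := by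
    rw [← div_le_iff₀ hm0]
    exact h2.trans h3
  linarith

end Pool.Agent.Lib.MP_629a14_nt.Spc
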