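import Pool.Agent.Lib.MP_629a14_nt.Fc.Tail
import Pool.Agent.Lib.MP_629a14_nt.Spc.Defs
import Pool.Agent.Lib.MP_629a14_nt.Spc.Cx

/-! Decomposition of the number of representations by two sets of primes, with a bound for the
mean square of the small part over families with few large Fourier coefficients. -/

set_option autoImplicit false

namespace Pool.Agent.Lib.MP_629a14_nt.Spc

open Finset Pool.Agent.Lib.MP_629a14_nt Pool.Agent.Lib.MP_629a14_nt.Rob
  Pool.Agent.Lib.MP_629a14_nt.En Pool.Agent.Lib.MP_629a14_nt.Fc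

/-- The mean square of a trigonometric polynomial over a family. -/
theorem poly_mean {k : ℕ} (N : ℕ) (H : Finset ℕ) (c : ℕ → ℂ) (a : Fin k → ℕ) :
    (∑ i, ‖∑ h ∈ H, c h * ee (((h : ℝ) / (2 * N + 1 : ℕ)) * a i)‖ ^ 2) / k ≤
      ∑ h ∈ H, ∑ h' ∈ H, ‖c h‖ * ‖c h'‖ * ‖bh a (df N (h, h'))‖ := by
  rcases Nat.eq_zero_or_pos k with hk | hk
  · subst hk
    simp only [CharP.cast_eq_zero, div_zero]
    exact sum_nonneg fun _ _ => sum_nonneg fun _ _ => by positivity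
  have hk0 : (0 : ℝ) < k := by exact_mod_cast hk
  rw [div_le_iff₀ hk0]
  refine (poly_sq N H c a).trans (le_of_eq ?_)
  rw [sum_mul]
  refine sum_congr rfl fun h _ => ?_
  rw [sum_mul]
  refine sum_congr rfl fun h' _ => ?_
  unfold bh
  rw [norm_div, Complex.norm_natCast, mul_assoc (‖c h‖ * ‖c h'‖), div_mul_cancel₀ _ hk0.ne']

/-- Decomposition of the normalised number of representations. -/
theorem decomp3 (s : ℕ) (hs : 1 ≤ s) (K ρ : ℝ) (hK : 0 ≤ K) (hρ : 0 < ρ) :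
    ∃ W1 : ℝ, 0 < W1 ∧ ∃ T1 : ℕ, ∀ N Q : ℕ, 3 ≤ N → Q = ⌊(N : ℝ) ^ (1 / 4 : ℝ)⌋₊ → ∀ A B : Finset ℕ,
    (∀ p ∈ A, p.Prime ∧ Q < p ∧ p ≤ N) → (∀ p ∈ B, p.Prime ∧ Q < p ∧ p ≤ N) →
    (A.card : ℝ) ≤ 2 * (N / Real.log N) → (B.card : ℝ) ≤ 2 * (N / Real.log N) →
    ∃ s1 : ℕ → ℂ, Wi N s1 W1 ∧ Cx T1 s1 ∧
      Wi N (fun n => (sf N A B n : ℂ) - s1 n) (2 * Real.log N) ∧
      ∀ (m : ℕ) (η : ℝ) (b : Fin m → ℕ), Spec s K η N m b → 0 ≤ η →
        (∑ j, ‖(sf N A B (b j) : ℂ) - s1 (b j)‖ ^ 2) / m ≤ η * (2 * Real.log N) ^ 2 + ρ := by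
  classical
  have hs1 : (1 : ℝ) ≤ s := by exact_mod_cast hs
  have hs0 : (0 : ℝ) < s := by linarith
  have h41 : (0 : ℝ) < 4 * s - 1 := by linarith
  obtain ⟨δ, hδ⟩ : ∃ δ : ℝ, δ = 1 / (4 * s - 1) := ⟨_, rfl⟩
  have hδ0 : 0 < δ := by rw [hδ]; exact one_div_pos.2 h41
  obtain ⟨q, hq⟩ : ∃ q : ℝ, q = 1 + δ := ⟨_, rfl⟩
  have hq0 : 0 < q := by rw [hq]; linarith
  have hqs : q * (4 * s - 1) = 4 * s := by
    rw [hq, hδ]; field_simp; ring
  obtain ⟨C1, hC1, h1⟩ := tt_moment (2 + δ) (by linarith)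
  obtain ⟨C2, hC2, h2⟩ := tt_moment (2 + 2 * δ) (by linarith)
  -- choice of the threshold
  have hlim : Filter.Tendsto (fun τ : ℝ => (2 * ((τ ^ δ * C1) ^ (1 / 2 : ℝ) * C2 ^ (1 / 2 : ℝ)))
      ^ (2 / q) * K ^ (1 / (2 * s : ℝ))) (nhds 0)
      (nhds ((2 * (((0 : ℝ) ^ δ * C1) ^ (1 / 2 : ℝ) * C2 ^ (1 / 2 : ℝ)))
      ^ (2 / q) * K ^ (1 / (2 * s : ℝ)))) := by
    refine Filter.Tendsto.mul_const _ ?_
    refine Filter.Tendsto.rpow_const ?_ (Or.inr (by positivity))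
    refine Filter.Tendsto.const_mul _ ?_
    refine Filter.Tendsto.mul_const _ ?_
    refine Filter.Tendsto.rpow_const ?_ (Or.inr (by norm_num))
    refine Filter.Tendsto.mul_const _ ?_
    exact (Real.continuous_rpow_const hδ0.le).continuousAt.tendsto
  have hz : (2 * (((0 : ℝ) ^ δ * C1) ^ (1 / 2 : ℝ) * C2 ^ (1 / 2 : ℝ)))
      ^ (2 / q) * K ^ (1 / (2 * s : ℝ)) = 0 := by
    rw [Real.zero_rpow hδ0.ne', zero_mul, Real.zero_rpow (by norm_num), zero_mul, mul_zero,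
      Real.zero_rpow (by positivity), zero_mul]
  rw [hz] at hlim
  obtain ⟨τ, hτ0, hτ⟩ : ∃ τ : ℝ, 0 < τ ∧
      (2 * ((τ ^ δ * C1) ^ (1 / 2 : ℝ) * C2 ^ (1 / 2 : ℝ)))
      ^ (2 / q) * K ^ (1 / (2 * s : ℝ)) ≤ ρ := by
    have h3 := hlim.eventually (gt_mem_nhds hρ)
    obtain ⟨σ, hσ, h4⟩ := Metric.eventually_nhds_iff.1 h3
    refine ⟨σ / 2, by positivity, (h4 ?_).le⟩
    rw [Real.dist_eq, sub_zero, abs_of_pos (by positivity)]
    linarith
  obtain ⟨T1, hT1⟩ := exists_nat_ge (max (τ ^ (-δ) * C1) (τ ^ (-(2 + δ)) * C1))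
  refine ⟨τ ^ (-δ) * C1, by positivity, T1, fun N Q hN hQ A B hA hB hAc hBc => ?_⟩
  have hNr : (3 : ℝ) ≤ N := by exact_mod_cast hN
  have hN0 : (0 : ℝ) < N := by linarith
  have hL : 0 < Real.log N := Real.log_pos (by linarith)
  set M : ℕ := 2 * N + 1 with hM
  have hMpos : 0 < M := by omega
  have hM0 : (0 : ℝ) < M := by exact_mod_cast hMpos
  have hNM : (N : ℝ) ≤ M := by rw [hM]; push_cast; linarith
  set L : ℝ := Real.log N with hLdef
  set c : ℕ → ℂ := fun h => ((L ^ 2 / N : ℝ) : ℂ) * ((1 / (M : ℂ)) * (fs N A h * fs N B h)) with hc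
  have hcn : ∀ h, ‖c h‖ = (N / M) * (TT N A h * TT N B h) := by
    intro h
    simp only [hc, TT]
    rw [norm_mul, norm_mul, norm_mul, norm_div, norm_one, Complex.norm_natCast,
      Complex.norm_real, Real.norm_of_nonneg (by positivity), ← hLdef]
    field_simp
  have hNM1 : (N : ℝ) / M ≤ 1 := by rw [div_le_one hM0]; exact hNM
  have hNM0 : 0 ≤ (N : ℝ) / M := by positivity
  have hTA0 := TT_nonneg N A
  have hTB0 := TT_nonneg N B
  have hAle : ∀ p ∈ A, p ≤ N := fun p hp => (hA p hp).2.2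
  have hBle : ∀ p ∈ B, p ≤ N := fun p hp => (hB p hp).2.2
  have hcle : ∀ h, ‖c h‖ ≤ TT N A h * TT N B h := by
    intro h
    rw [hcn h]
    exact mul_le_of_le_one_left (mul_nonneg (hTA0 h) (hTB0 h)) hNM1
  have hA1 := h1 N Q hN hQ A hA hAc
  have hB1 := h1 N Q hN hQ B hB hBc
  have hA2 := h2 N Q hN hQ A hA hAc
  have hB2 := h2 N Q hN hQ B hB hBc
  rw [← hM] at hA1 hB1 hA2 hB2
  set Lam : Finset ℕ := (range M).filter (fun h => τ ≤ TT N A h ∧ τ ≤ TT N B h) with hLam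
  have hLamsub : Lam ⊆ range M := filter_subset _ _
  have hser : ∀ n ∈ Icc 1 N, (sf N A B n : ℂ) = ∑ h ∈ range M, c h * ee (((h : ℝ) / M) * n) := by
    intro n hn
    have h1 := rep_fourier A B hAle hBle (mem_Icc.1 hn).2
    rw [← hM] at h1
    unfold sf
    rw [← hLdef, Complex.ofReal_mul, Complex.ofReal_natCast, h1, mul_sum]
    refine sum_congr rfl fun h _ => ?_
    simp only [hc, fs]
    rw [← hM]
    ring
  set s1 : ℕ → ℂ := fun n => ∑ h ∈ Lam, c h * ee (((h : ℝ) / M) * n) with hs1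
  have hs2 : ∀ n ∈ Icc 1 N, (sf N A B n : ℂ) - s1 n =
      ∑ h ∈ range M \ Lam, c h * ee (((h : ℝ) / M) * n) := by
    intro n hn
    rw [hser n hn, hs1]
    simp only
    rw [← sum_sdiff hLamsub]
    ring
  have hl1 : ∑ h ∈ range M \ Lam, ‖c h‖ ≤ 2 * L := by
    have hA2 : ∑ h ∈ range M, TT N A h ^ 2 = (M * A.card) * (L / N) ^ 2 := by
      have h2 := parseval_set A hAle
      rw [← hM] at h2
      rw [← h2, sum_mul]
      refine sum_congr rfl fun h _ => ?_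
      unfold TT fs
      rw [mul_pow]
    have hB2 : ∑ h ∈ range M, TT N B h ^ 2 = (M * B.card) * (L / N) ^ 2 := by
      have h2 := parseval_set B hBle
      rw [← hM] at h2
      rw [← h2, sum_mul]
      refine sum_congr rfl fun h _ => ?_
      unfold TT fs
      rw [mul_pow]
    calc ∑ h ∈ range M \ Lam, ‖c h‖ ≤ ∑ h ∈ range M, ‖c h‖ :=
          sum_le_sum_of_subset_of_nonneg sdiff_subset (fun _ _ _ => norm_nonneg _)
      _ ≤ ∑ h ∈ range M, (N / M) * ((TT N A h ^ 2 + TT N B h ^ 2) / 2) := by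
          refine sum_le_sum fun h _ => ?_
          rw [hcn h]
          refine mul_le_mul_of_nonneg_left ?_ hNM0
          nlinarith [sq_nonneg (TT N A h - TT N B h)]
      _ = (N / M) * (((M * A.card) * (L / N) ^ 2 + (M * B.card) * (L / N) ^ 2) / 2) := by
          rw [← mul_sum, ← sum_div, sum_add_distrib, hA2, hB2]
      _ = (L ^ 2 / N) * (((A.card : ℝ) + B.card) / 2) := by
          field_simp
      _ ≤ (L ^ 2 / N) * ((2 * (N / L) + 2 * (N / L)) / 2) := by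
          gcongr
      _ = 2 * L := by
          field_simp
          ring
  have hLc : ∑ h ∈ Lam, ‖c h‖ ≤ τ ^ (-δ) * C1 := by
    have hpow : ∀ X : ℝ, τ ≤ X → X ^ 2 ≤ τ ^ (-δ) * X ^ (2 + δ) := by
      intro X hX
      have hX0 : 0 < X := by linarith
      rw [Real.rpow_add hX0, Real.rpow_two, Real.rpow_neg hτ0.le]
      have h3 : τ ^ δ ≤ X ^ δ := Real.rpow_le_rpow hτ0.le hX hδ0.le
      have h4 : 0 < τ ^ δ := Real.rpow_pos_of_pos hτ0 _
      have h5 : 1 ≤ (τ ^ δ)⁻¹ * X ^ δ := by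
        rw [inv_mul_eq_div, one_le_div h4]
        exact h3
      calc X ^ 2 = 1 * X ^ 2 := (one_mul _).symm
        _ ≤ ((τ ^ δ)⁻¹ * X ^ δ) * X ^ 2 := mul_le_mul_of_nonneg_right h5 (by positivity)
        _ = _ := by ring
    calc ∑ h ∈ Lam, ‖c h‖
        ≤ ∑ h ∈ Lam, (τ ^ (-δ) * TT N A h ^ (2 + δ) + τ ^ (-δ) * TT N B h ^ (2 + δ)) / 2 := by
          refine sum_le_sum fun h hh => ?_
          rw [hLam, mem_filter] at hh
          have h3 := hpow _ hh.2.1
          have h4 := hpow _ hh.2.2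
          have h5 := hcle h
          nlinarith [sq_nonneg (TT N A h - TT N B h)]
      _ = τ ^ (-δ) * ((∑ h ∈ Lam, TT N A h ^ (2 + δ) + ∑ h ∈ Lam, TT N B h ^ (2 + δ)) / 2) := by
          rw [← sum_div, sum_add_distrib, ← mul_sum, ← mul_sum]
          ring
      _ ≤ τ ^ (-δ) * ((C1 + C1) / 2) := by
          have h3 : ∑ h ∈ Lam, TT N A h ^ (2 + δ) ≤ C1 := le_trans
            (sum_le_sum_of_subset_of_nonneg hLamsub
              fun h _ _ => Real.rpow_nonneg (hTA0 h) _) hA1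
          have h4 : ∑ h ∈ Lam, TT N B h ^ (2 + δ) ≤ C1 := le_trans
            (sum_le_sum_of_subset_of_nonneg hLamsub
              fun h _ _ => Real.rpow_nonneg (hTB0 h) _) hB1
          refine mul_le_mul_of_nonneg_left ?_ (by positivity)
          linarith
      _ = _ := by ring
  have hLcard : (Lam.card : ℝ) ≤ τ ^ (-(2 + δ)) * C1 := by
    have hτp : 0 < τ ^ (2 + δ) := Real.rpow_pos_of_pos hτ0 _
    have h3 : (Lam.card : ℝ) * τ ^ (2 + δ) ≤ C1 := by
      calc (Lam.card : ℝ) * τ ^ (2 + δ) = ∑ _h ∈ Lam, τ ^ (2 + δ) := by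
            rw [sum_const, nsmul_eq_mul]
        _ ≤ ∑ h ∈ Lam, TT N A h ^ (2 + δ) := by
            refine sum_le_sum fun h hh => ?_
            rw [hLam, mem_filter] at hh
            exact Real.rpow_le_rpow hτ0.le hh.2.1 (by linarith)
        _ ≤ C1 := le_trans (sum_le_sum_of_subset_of_nonneg hLamsub
              fun h _ _ => Real.rpow_nonneg (hTA0 h) _) hA1
    rw [Real.rpow_neg hτ0.le, inv_mul_eq_div, le_div_iff₀ hτp]
    exact h3
  refine ⟨s1, ?_, ?_, ?_, ?_⟩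
  · exact (Wi.sum Lam (fun h n => c h * ee (((h : ℝ) / M) * n)) (fun h => ‖c h‖)
      (fun h _ => Wi.char _ _)).mono hLc
  · exact Cx.of_sum Lam c (fun h => (h : ℝ) / M) hLcard
      (fun i hi => (single_le_sum (f := fun h => ‖c h‖) (fun _ _ => norm_nonneg _) hi).trans hLc)
      ((le_max_right _ _).trans hT1) ((le_max_left _ _).trans hT1)
  · have h1 := Wi.sum (N := N) (range M \ Lam) (fun h n => c h * ee (((h : ℝ) / M) * n))
      (fun h => ‖c h‖) (fun h _ => Wi.char _ _)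
    exact (h1.congr hs2).mono hl1
  · intro m η a ha hη
    set H : Finset ℕ := range M \ Lam with hH
    have haN : ∀ i, a i ∈ Icc 1 N := fun i => mem_Icc.2 (ha.1 i)
    have e1 : ∑ i, ‖(sf N A B (a i) : ℂ) - s1 (a i)‖ ^ 2 =
        ∑ i, ‖∑ h ∈ H, c h * ee (((h : ℝ) / (2 * N + 1 : ℕ)) * a i)‖ ^ 2 :=
      sum_congr rfl fun i _ => by rw [hs2 (a i) (haN i)]
    rw [e1]
    have hpq : ∑ h ∈ H, ‖c h‖ ^ q ≤ 2 * ((τ ^ δ * C1) ^ (1 / 2 : ℝ) * C2 ^ (1 / 2 : ℝ)) := by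
      have g1 := small_part (range M) (TT N A) (TT N B) (fun h _ => hTA0 h) (fun h _ => hTB0 h)
        hδ0 hq hτ0 hA1 hB2
      have g2 := small_part (range M) (TT N B) (TT N A) (fun h _ => hTB0 h) (fun h _ => hTA0 h)
        hδ0 hq hτ0 hB1 hA2
      have hnn : ∀ h, 0 ≤ (TT N A h * TT N B h) ^ q :=
        fun h => Real.rpow_nonneg (mul_nonneg (hTA0 h) (hTB0 h)) _
      calc ∑ h ∈ H, ‖c h‖ ^ q ≤ ∑ h ∈ H, (TT N A h * TT N B h) ^ q :=
            sum_le_sum fun h _ => Real.rpow_le_rpow (norm_nonneg _) (hcle h) hq0.le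
        _ ≤ ∑ h ∈ (range M).filter (fun h => TT N A h ≤ τ) ∪
            (range M).filter (fun h => TT N B h ≤ τ), (TT N A h * TT N B h) ^ q := by
            refine sum_le_sum_of_subset_of_nonneg ?_ fun h _ _ => hnn h
            intro h hh
            rw [hH, mem_sdiff, hLam, mem_filter] at hh
            rw [mem_union, mem_filter, mem_filter]
            by_cases h1 : τ ≤ TT N A h
            · right
              refine ⟨hh.1, ?_⟩
              by_contra h2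
              push Not at h2
              exact hh.2 ⟨hh.1, h1, h2.le⟩
            · left
              push Not at h1
              exact ⟨hh.1, h1.le⟩
        _ ≤ ∑ h ∈ (range M).filter (fun h => TT N A h ≤ τ), (TT N A h * TT N B h) ^ q +
            ∑ h ∈ (range M).filter (fun h => TT N B h ≤ τ), (TT N A h * TT N B h) ^ q := by
            rw [← sum_union_inter]
            have : 0 ≤ ∑ h ∈ (range M).filter (fun h => TT N A h ≤ τ) ∩
              (range M).filter (fun h => TT N B h ≤ τ), (TT N A h * TT N B h) ^ q :=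
              sum_nonneg fun h _ => hnn h
            linarith
        _ ≤ (τ ^ δ * C1) ^ (1 / 2 : ℝ) * C2 ^ (1 / 2 : ℝ) +
            (τ ^ δ * C1) ^ (1 / 2 : ℝ) * C2 ^ (1 / 2 : ℝ) := by
            refine add_le_add g1 ?_
            have e : ∀ h, (TT N A h * TT N B h) ^ q = (TT N B h * TT N A h) ^ q :=
              fun h => by rw [mul_comm]
            simp only [e]
            exact g2
        _ = _ := by ring
    have hY := quad a s N hs q K η hqs hη ha H sdiff_subset (fun h => ‖c h‖)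
      (fun _ _ => norm_nonneg _)
    have hs0' : 0 ≤ ∑ h ∈ H, ‖c h‖ := sum_nonneg fun _ _ => norm_nonneg _
    calc (∑ i, ‖∑ h ∈ H, c h * ee (((h : ℝ) / (2 * N + 1 : ℕ)) * a i)‖ ^ 2) / m
        ≤ _ := poly_mean N H c a
      _ ≤ _ := hY
      _ ≤ η * (2 * L) ^ 2 + (2 * ((τ ^ δ * C1) ^ (1 / 2 : ℝ) * C2 ^ (1 / 2 : ℝ))) ^ (2 / q) *
          K ^ (1 / (2 * s : ℝ)) := by
          refine add_le_add ?_ ?_
          · exact mul_le_mul_of_nonneg_left (pow_le_pow_left₀ hs0' hl1 2) hη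
          · refine mul_le_mul_of_nonneg_right (Real.rpow_le_rpow ?_ hpq (by positivity))
              (by positivity)
            exact sum_nonneg fun h _ => Real.rpow_nonneg (norm_nonneg _) _
      _ ≤ η * (2 * L) ^ 2 + ρ := add_le_add le_rfl hτ

end Pool.Agent.Lib.MP_629a14_nt.Spc
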