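import Pool.Agent.Lib.MP_629a14_nt.Fc.TFun
import Pool.Agent.Lib.MP_629a14_nt.Fc.Wt
import Pool.Agent.Lib.MP_629a14_nt.Spc.Tail
import Pool.Agent.Lib.MP_629a14_nt.Spc.Bad
import Pool.Agent.Lib.MP_629a14_nt.Transfer

/-! The distribution of the normalised number of representations over two families with few large
Fourier coefficients which are close. -/

set_option autoImplicit false

namespace Pool.Agent.Lib.MP_629a14_nt.Spc

open Finset Pool.Agent.Lib.MP_629a14_nt Pool.Agent.Lib.MP_629a14_nt.Rob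
  Pool.Agent.Lib.MP_629a14_nt.En Pool.Agent.Lib.MP_629a14_nt.Fc

/-- The mean of `tf - tv` over a family with few bad members. -/
theorem mean_T {m : ℕ} (b : Fin m → ℕ) (hb : ∀ j, 1 ≤ b j) {v : ℕ} (hv : 2 ≤ v) {ε : ℝ}
    (hε : 0 < ε) (hbad : (((univ : Finset (Fin m)).filter (fun j =>
        ε < ∑ p ∈ (b j).primeFactors.filter (fun p => v < p), 1 / (p : ℝ))).card : ℝ) ≤ ε * m) :
    (∑ j, |tf (b j) - tv v (b j)|) / m ≤ 3 * ε := by
  classical
  have h1 : ∀ j, |tf (b j) - tv v (b j)| ≤ 2 * ε + (if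
      ε < ∑ p ∈ (b j).primeFactors.filter (fun p => v < p), 1 / (p : ℝ) then 1 else 0) := by
    intro j
    split_ifs with h
    · have h2 := tf_pos (b j)
      have h3 := tf_le_one (b j)
      have h4 := tv_nonneg v (b j)
      have h5 := tv_le_one v (b j)
      rw [abs_le]
      constructor <;> linarith
    · have h2 := tf_sub_tv v (b j) hv (hb j)
      push Not at h
      linarith
  rcases Nat.eq_zero_or_pos m with hm | hm
  · subst hm
    simp
    positivity
  · have hm0 : (0 : ℝ) < m := by exact_mod_cast hm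
    rw [div_le_iff₀ hm0]
    calc ∑ j, |tf (b j) - tv v (b j)| ≤ ∑ j, (2 * ε + (if
          ε < ∑ p ∈ (b j).primeFactors.filter (fun p => v < p), 1 / (p : ℝ) then 1 else 0)) :=
          sum_le_sum fun j _ => h1 j
      _ = m * (2 * ε) + (((univ : Finset (Fin m)).filter (fun j =>
        ε < ∑ p ∈ (b j).primeFactors.filter (fun p => v < p), 1 / (p : ℝ))).card : ℝ) := by
          rw [sum_add_distrib, sum_const, card_univ, Fintype.card_fin, nsmul_eq_mul, ← sum_filter,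
            sum_const, nsmul_eq_mul, mul_one]
      _ ≤ m * (2 * ε) + ε * m := by linarith
      _ = 3 * ε * m := by ring

open Classical in
/-- Main theorem on distribution functions. -/
theorem levy (s : ℕ) (hs : 1 ≤ s) (K δ : ℝ) (hK : 0 ≤ K) (hδ : 0 < δ) (hδ1 : δ ≤ 1) :
    ∃ c0 : ℝ, 0 < c0 ∧ ∃ N0 : ℕ, ∀ N : ℕ, N0 ≤ N → ∀ A B : Finset ℕ,
      (∀ p ∈ A, p.Prime) → (∀ p ∈ B, p.Prime) → ∀ (k m : ℕ) (a : Fin k → ℕ) (b : Fin m → ℕ)
      (η : ℝ), 0 < k → 0 < m → 0 ≤ η → η ≤ c0 / (Real.log N) ^ 2 → Spec s K η N k a →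
      Spec s K η N m b → Close c0 a b → ∀ c : ℝ,
        (((univ : Finset (Fin m)).filter (fun j => RR A B (b j) ≤ c)).card : ℝ) / m ≤
          (((univ : Finset (Fin k)).filter (fun i => RR A B (a i) ≤ c + δ)).card : ℝ) / k + δ := by
  have htw := tw_pos
  obtain ⟨u, hu⟩ : ∃ u : ℝ, u = 1 / (2 * tw) := ⟨_, rfl⟩
  have hu0 : 0 < u := by rw [hu]; positivity
  -- parameters
  obtain ⟨κ1, hκ10, _, M1, hM1⟩ := small_spec s hs K (δ / 4) hK (by positivity)
  obtain ⟨κ, hκ⟩ : ∃ κ : ℝ, κ = min κ1 (1 / 2) := ⟨_, rfl⟩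
  have hκ0 : 0 < κ := by rw [hκ]; exact lt_min hκ10 (by norm_num)
  have hκ1 : κ < 1 := by
    rw [hκ]
    exact lt_of_le_of_lt (min_le_right _ _) (by norm_num)
  have hκa : κ ≤ κ1 := by rw [hκ]; exact min_le_left _ _
  set α : ℝ := κ * δ / 2 with hα
  have hα0 : 0 < α := by rw [hα]; positivity
  set C0 : ℝ := 18480 / tw with hC0
  have hC00 : 0 < C0 := by rw [hC0]; positivity
  set θ : ℝ := α * δ / 8 with hθ
  have hθ0 : 0 < θ := by rw [hθ]; positivity
  set β : ℝ := θ / (3 * u) with hβ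
  have hβ0 : 0 < β := by rw [hβ]; positivity
  have huβ : u * β = θ / 3 := by
    rw [hβ]
    field_simp
  obtain ⟨W1, hW10, _, hW1⟩ := decomp3 s hs K (β ^ 2 / 2) hK (by positivity)
  obtain ⟨ε, hε⟩ : ∃ ε : ℝ, ε = θ / (9 * u * W1) := ⟨_, rfl⟩
  have hε0 : 0 < ε := by rw [hε]; positivity
  have hεW : u * (W1 * (3 * ε)) = θ / 3 := by
    rw [hε]
    field_simp
    norm_num
  obtain ⟨v0, M3, hM3⟩ := bad_spec s hs K ε ε hK hε0 hε0
  obtain ⟨v, hv⟩ : ∃ v : ℕ, v = max v0 2 := ⟨_, rfl⟩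
  have hv0 : v0 ≤ v := by rw [hv]; exact le_max_left _ _
  have hv2 : 2 ≤ v := by rw [hv]; exact le_max_right _ _
  set X : ℝ := u * (W1 * 2 ^ (v + 1)) + C0 with hX
  obtain ⟨pF, hpF⟩ := exists_ramp_poly α X (δ / 32) (by positivity)
  have hX0 : 0 ≤ X := by rw [hX]; positivity
  have hpF0 : 0 ≤ pn pF X := by
    unfold pn
    exact sum_nonneg fun k _ => by positivity
  set c0 : ℝ := min (min (δ / (16 * (pn pF X + 1))) (β ^ 2 / 8)) (min 1 (δ / 32)) with hc0
  have hc00 : 0 < c0 := by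
    rw [hc0]
    exact lt_min (lt_min (by positivity) (by positivity)) (lt_min one_pos (by positivity))
  have hcF : pn pF X * c0 ≤ δ / 16 := by
    have h1 : c0 ≤ δ / (16 * (pn pF X + 1)) := (min_le_left _ _).trans (min_le_left _ _)
    rw [le_div_iff₀ (by positivity)] at h1
    nlinarith
  have hcβ : 4 * c0 ≤ β ^ 2 / 2 := by
    have h1 : c0 ≤ β ^ 2 / 8 := (min_le_left _ _).trans (min_le_right _ _)
    linarith
  have hc1 : c0 ≤ 1 := (min_le_right _ _).trans (min_le_left _ _)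
  have hcδ : c0 ≤ δ / 4 / 4 := by
    have : c0 ≤ δ / 32 := (min_le_right _ _).trans (min_le_right _ _)
    linarith
  set γ : ℝ := α / C0 with hγ
  have hγ0 : 0 < γ := by rw [hγ]; positivity
  set ell : ℝ := - Real.log κ with hell
  have hell0 : 0 < ell := by
    rw [hell]
    have := Real.log_neg hκ0 hκ1
    linarith
  obtain ⟨M4, hM4⟩ := eventual_facts (θ / (3 * u)) (ell * (2 * (1 + γ) / γ)) 0 (by positivity)
  refine ⟨c0, hc00, max M1 (max M3 M4), fun N hN A B hA hB k m a b η hk hm hη0 hη ha hb hcl c => ?_⟩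
  have hN1 : M1 ≤ N := (le_max_left _ _).trans hN
  have hN3 : M3 ≤ N := (le_max_left _ _).trans ((le_max_right _ _).trans hN)
  have hN4 : M4 ≤ N := (le_max_right _ _).trans ((le_max_right _ _).trans hN)
  obtain ⟨f1, _, f3, f4, f5⟩ := hM4 N hN4
  have hNr : (3 : ℝ) ≤ N := by exact_mod_cast f1
  have hNpos : (0 : ℝ) < N := by linarith
  have hNn : 0 < N := by omega
  have hk0 : (0 : ℝ) < k := by exact_mod_cast hk
  have hm0 : (0 : ℝ) < m := by exact_mod_cast hm
  obtain ⟨L, hLdef⟩ : ∃ L : ℝ, L = Real.log N := ⟨_, rfl⟩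
  rw [← hLdef] at f4 f5 hη
  have hL1 : 1 ≤ L := by
    rw [hLdef]
    have h1 : Real.exp 1 ≤ N := by
      have := Real.exp_one_lt_d9
      linarith
    calc (1 : ℝ) = Real.log (Real.exp 1) := (Real.log_exp 1).symm
      _ ≤ Real.log N := Real.log_le_log (Real.exp_pos 1) h1
  have hL0 : 0 < L := by linarith
  have hη1 : η ≤ c0 := hη.trans (div_le_self hc00.le (one_le_pow₀ hL1))
  have hη2 : η ≤ 1 / (Real.log N) ^ 2 := by
    rw [← hLdef]
    exact hη.trans (div_le_div_of_nonneg_right hc1 (by positivity))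
  have haI : ∀ i, a i ∈ Icc 1 N := fun i => mem_Icc.2 (ha.1 i)
  have hbI : ∀ j, b j ∈ Icc 1 N := fun j => mem_Icc.2 (hb.1 j)
  -- weights
  obtain ⟨w, hwdef⟩ : ∃ w : ℕ → ℝ, w = wt b := ⟨_, rfl⟩
  obtain ⟨w', hw'def⟩ : ∃ w' : ℕ → ℝ, w' = wt a := ⟨_, rfl⟩
  have hw : IsWt N w := by rw [hwdef]; exact isWt b hm hbI
  have hw' : IsWt N w' := by rw [hw'def]; exact isWt a hk haI
  have hu : ∀ t : ℝ, ‖∑ n ∈ Icc 1 N, ((w n - w' n : ℝ) : ℂ) * ee (t * n)‖ ≤ c0 := by
    rw [hwdef, hw'def]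
    exact close_wt hcl haI hbI
  -- the comparison of `L` and `log n`
  have hlogs : ∀ n ∈ Icc 1 N, κ * N ≤ n → L ^ 2 ≤ (1 + γ) * (Real.log n) ^ 2 := by
    intro n hn hkn
    have hn1 := (mem_Icc.1 hn).1
    have hnr : (0 : ℝ) < n := by exact_mod_cast hn1
    have h1 : L - ell ≤ Real.log n := by
      calc L - ell = Real.log (κ * N) := by
            rw [Real.log_mul hκ0.ne' hNpos.ne', hLdef, hell]
            ring
        _ ≤ Real.log n := Real.log_le_log (by positivity) hkn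
    have h2 : ell ≤ (γ / (2 * (1 + γ))) * L := by
      have h3 : ell * (2 * (1 + γ) / γ) * (γ / (2 * (1 + γ))) = ell := by
        field_simp
      calc ell = ell * (2 * (1 + γ) / γ) * (γ / (2 * (1 + γ))) := h3.symm
        _ ≤ L * (γ / (2 * (1 + γ))) := by gcongr
        _ = _ := mul_comm _ _
    set e1 : ℝ := γ / (2 * (1 + γ)) with he1
    have he10 : 0 < e1 := by rw [he1]; positivity
    have he11 : e1 ≤ 1 / 2 := by
      rw [he1, div_le_div_iff₀ (by positivity) (by norm_num)]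
      linarith
    have h3 : (1 - e1) * L ≤ Real.log n := by linarith
    have h4 : 0 ≤ (1 - e1) * L := mul_nonneg (by linarith) hL0.le
    have h5 : ((1 - e1) * L) ^ 2 ≤ (Real.log n) ^ 2 := pow_le_pow_left₀ h4 h3 2
    have h6 : 1 ≤ (1 + γ) * (1 - e1) ^ 2 := by
      have h7 : (1 + γ) * (1 - 2 * e1) = 1 := by
        rw [he1]
        field_simp
        ring
      nlinarith [sq_nonneg e1]
    calc L ^ 2 = 1 * L ^ 2 := by ring
      _ ≤ ((1 + γ) * (1 - e1) ^ 2) * L ^ 2 := by gcongr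
      _ = (1 + γ) * ((1 - e1) * L) ^ 2 := by ring
      _ ≤ (1 + γ) * (Real.log n) ^ 2 := by gcongr
  -- small masses
  have hsw' : ∑ n ∈ (Icc 1 N).filter (fun n : ℕ => (n : ℝ) < κ * N), w' n ≤ δ / 4 := by
    rw [hw'def, wt_filter a haI, div_le_iff₀ hk0]
    refine le_trans ?_ (hM1 N hN1 k η a ha hη0 (hη1.trans hcδ))
    have h2 : (univ : Finset (Fin k)).filter (fun i => (a i : ℝ) < κ * N) ⊆
        (univ : Finset (Fin k)).filter (fun i => (a i : ℝ) < κ1 * N) := by
      intro i hi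
      rw [mem_filter] at hi ⊢
      exact ⟨hi.1, lt_of_lt_of_le hi.2 (mul_le_mul_of_nonneg_right hκa hNpos.le)⟩
    exact_mod_cast card_le_card h2
  have hlin := wi_lin N hNn
  have hsw : ∑ n ∈ (Icc 1 N).filter (fun n : ℕ => (n : ℝ) < κ * N), w n ≤ δ / 4 := by
    rw [hwdef, wt_filter b hbI, div_le_iff₀ hm0]
    refine le_trans ?_ (hM1 N hN1 m η b hb hη0 (hη1.trans hcδ))
    have h2 : (univ : Finset (Fin m)).filter (fun i => (b i : ℝ) < κ * N) ⊆
        (univ : Finset (Fin m)).filter (fun i => (b i : ℝ) < κ1 * N) := by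
      intro i hi
      rw [mem_filter] at hi ⊢
      exact ⟨hi.1, lt_of_lt_of_le hi.2 (mul_le_mul_of_nonneg_right hκa hNpos.le)⟩
    exact_mod_cast card_le_card h2
  -- translation to the weights
  have eb : ∀ c : ℝ, (((univ : Finset (Fin m)).filter (fun j => RR A B (b j) ≤ c)).card : ℝ) / m =
      ∑ n ∈ (Icc 1 N).filter (fun n => RR A B n ≤ c), w n := by
    intro c
    rw [hwdef, wt_filter b hbI]
  have ea : ∀ c : ℝ, (((univ : Finset (Fin k)).filter (fun j => RR A B (a j) ≤ c)).card : ℝ) / k =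
      ∑ n ∈ (Icc 1 N).filter (fun n => RR A B n ≤ c), w' n := by
    intro c
    rw [hw'def, wt_filter a haI]
  rw [eb, ea]
  -- trivial ranges of c
  by_cases hcneg : c < 0
  · have hemp : (Icc 1 N).filter (fun n => RR A B n ≤ c) = ∅ := by
      apply filter_false_of_mem
      intro n _ h
      have := RR_nonneg A B n
      linarith
    simp only [hemp, sum_empty]
    have n1 : 0 ≤ ∑ n ∈ (Icc 1 N).filter (fun n => RR A B n ≤ c + δ), w' n :=
      sum_nonneg fun n hn => hw'.1 n (mem_filter.1 hn).1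
    linarith
  push Not at hcneg
  by_cases hcbig : C0 < c
  · have hall : (Icc 1 N).filter (fun n => RR A B n ≤ c + δ) = Icc 1 N := by
      apply filter_true_of_mem
      intro n hn
      have := RR_le hA hB (mem_Icc.1 hn).1
      linarith
    rw [hall, hw'.2]
    have n1 : ∑ n ∈ (Icc 1 N).filter (fun n => RR A B n ≤ c), w n ≤ 1 := by
      rw [← hw.2]
      exact sum_le_sum_of_subset_of_nonneg (filter_subset _ _) (fun n hn _ => hw.1 n hn)
    linarith
  push Not at hcbig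
  -- truncated sets
  obtain ⟨Q, hQ⟩ : ∃ Q : ℕ, Q = ⌊(N : ℝ) ^ (1 / 4 : ℝ)⌋₊ := ⟨_, rfl⟩
  have hQle : (Q : ℝ) ≤ (N : ℝ) ^ (1 / 4 : ℝ) := by
    rw [hQ]
    exact Nat.floor_le (Real.rpow_nonneg hNpos.le _)
  set A' := A.filter (fun p => Q < p ∧ p ≤ N) with hA'
  set B' := B.filter (fun p => Q < p ∧ p ≤ N) with hB'
  have hA'p : ∀ p ∈ A', p.Prime ∧ Q < p ∧ p ≤ N := by
    intro p hp
    rw [hA', mem_filter] at hp
    exact ⟨hA p hp.1, hp.2.1, hp.2.2⟩
  have hB'p : ∀ p ∈ B', p.Prime ∧ Q < p ∧ p ≤ N := by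
    intro p hp
    rw [hB', mem_filter] at hp
    exact ⟨hB p hp.1, hp.2.1, hp.2.2⟩
  have hAc := f3 A' (fun p hp => ⟨(hA'p p hp).1, (hA'p p hp).2.2⟩)
  have hBc := f3 B' (fun p hp => ⟨(hB'p p hp).1, (hB'p p hp).2.2⟩)
  obtain ⟨s1, hs1, _, hs2, hs3⟩ := hW1 N Q f1 hQ A' B' hA'p hB'p hAc hBc
  -- the functions
  set x : ℕ → ℝ := fun n => u * (sf N A B n * tf n) - c * ((n : ℝ) / N) with hx
  set x1 : ℕ → ℝ := fun n => u * ((s1 n).re * tv v n) - c * ((n : ℝ) / N) with hx1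
  set g : ℕ → ℝ := fun n => ‖(sf N A' B' n : ℂ) - s1 n‖ with hg
  set e : ℕ → ℝ := fun n => u * g n + u * (W1 * |tf n - tv v n|) + θ / 3 with he
  have hg0 : ∀ n, 0 ≤ g n := fun n => norm_nonneg _
  have hwx1 : Wi N (fun n => (x1 n : ℂ)) X := by
    have h1 := ((hs1.re.mul (wi_tv N v)).smul (u : ℂ)).sub (hlin.smul (c : ℂ))
    refine (h1.congr fun n _ => ?_).mono ?_
    · simp only [hx1]
      push_cast
      ring
    · rw [Complex.norm_real, Real.norm_of_nonneg hu0.le, Complex.norm_real,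
        Real.norm_of_nonneg hcneg, hX, mul_one]
      linarith
  have hxe : ∀ n ∈ Icc 1 N, |x n - x1 n| ≤ e n := by
    intro n hn
    have hn2 := (mem_Icc.1 hn).2
    have htt0 := (tf_pos n).le
    have htt1 := tf_le_one n
    have h1 : sf N A' B' n ≤ sf N A B n := by
      unfold sf
      refine mul_le_mul_of_nonneg_left ?_ (by positivity)
      exact_mod_cast rep_mono' (filter_subset _ _) (filter_subset _ _) n
    have h2 : sf N A B n ≤ sf N A' B' n + θ / (3 * u) := by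
      have h3 := rep_trunc hA hB (Q := Q) hn2
      rw [← hA', ← hB'] at h3
      unfold sf
      rw [← hLdef]
      calc L ^ 2 / N * (repAB A B n : ℝ) ≤ L ^ 2 / N * (repAB A' B' n + 2 * Q) := by gcongr
        _ ≤ L ^ 2 / N * (repAB A' B' n + 2 * (N : ℝ) ^ (1 / 4 : ℝ)) := by gcongr
        _ = L ^ 2 / N * (repAB A' B' n) + L ^ 2 / N * (2 * (N : ℝ) ^ (1 / 4 : ℝ)) := by ring
        _ ≤ _ := by linarith
    have h4 : |sf N A' B' n - (s1 n).re| ≤ g n := by
      have h5 : sf N A' B' n - (s1 n).re = ((sf N A' B' n : ℂ) - s1 n).re := by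
        rw [Complex.sub_re, Complex.ofReal_re]
      rw [h5]
      exact Complex.abs_re_le_norm _
    have h6 : |(s1 n).re| ≤ W1 := (Complex.abs_re_le_norm _).trans (hs1.norm_le hn)
    have e1 : x n - x1 n = u * ((sf N A B n - sf N A' B' n) * tf n) +
        u * ((sf N A' B' n - (s1 n).re) * tf n) + u * ((s1 n).re * (tf n - tv v n)) := by
      simp only [hx, hx1]
      ring
    rw [e1]
    have b1 : |u * ((sf N A B n - sf N A' B' n) * tf n)| ≤ θ / 3 := by
      rw [abs_mul, abs_mul, abs_of_nonneg htt0, abs_of_nonneg hu0.le,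
        abs_of_nonneg (by linarith : 0 ≤ sf N A B n - sf N A' B' n)]
      have h8 : 0 ≤ sf N A B n - sf N A' B' n := by linarith
      calc u * ((sf N A B n - sf N A' B' n) * tf n) ≤ u * ((θ / (3 * u)) * 1) := by
            refine mul_le_mul_of_nonneg_left ?_ hu0.le
            exact mul_le_mul (by linarith) htt1 htt0 (by positivity)
        _ = θ / 3 := by field_simp
    have b2 : |u * ((sf N A' B' n - (s1 n).re) * tf n)| ≤ u * g n := by
      rw [abs_mul, abs_mul, abs_of_nonneg htt0, abs_of_nonneg hu0.le]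
      refine mul_le_mul_of_nonneg_left ?_ hu0.le
      calc |sf N A' B' n - (s1 n).re| * tf n ≤ g n * 1 :=
            mul_le_mul h4 htt1 htt0 (hg0 n)
        _ = g n := mul_one _
    have b3 : |u * ((s1 n).re * (tf n - tv v n))| ≤ u * (W1 * |tf n - tv v n|) := by
      rw [abs_mul, abs_mul, abs_of_nonneg hu0.le]
      refine mul_le_mul_of_nonneg_left ?_ hu0.le
      exact mul_le_mul_of_nonneg_right h6 (abs_nonneg _)
    refine (abs_add_three _ _ _).trans ?_
    simp only [he]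
    linarith
  -- second moments of g
  have hL4 : η * (2 * Real.log N) ^ 2 + β ^ 2 / 2 ≤ β ^ 2 := by
    rw [← hLdef]
    have h1 : η * (2 * L) ^ 2 ≤ 4 * c0 := by
      calc η * (2 * L) ^ 2 ≤ (c0 / L ^ 2) * (2 * L) ^ 2 :=
            mul_le_mul_of_nonneg_right hη (by positivity)
        _ = 4 * c0 := by
            field_simp
            ring
    linarith
  have hgw' : ∑ n ∈ Icc 1 N, w' n * g n ^ 2 ≤ β ^ 2 := by
    rw [hw'def, wt_sum a haI (fun n => g n ^ 2)]
    exact (hs3 k η a ha hη0).trans hL4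
  have hgw : ∑ n ∈ Icc 1 N, w n * g n ^ 2 ≤ β ^ 2 := by
    rw [hwdef, wt_sum b hbI (fun n => g n ^ 2)]
    exact (hs3 m η b hb hη0).trans hL4
  have hgw1 := jensen hw hβ0 hgw
  have hgw1' := jensen hw' hβ0 hgw'
  -- first moments of the truncation error
  have hTw : ∑ n ∈ Icc 1 N, w n * |tf n - tv v n| ≤ 3 * ε := by
    rw [hwdef, wt_sum b hbI (fun n => |tf n - tv v n|)]
    exact mean_T b (fun j => (hb.1 j).1) hv2 hε0 (hM3 v hv0 N hN3 m η b hb hη0 hη2)
  have hTw' : ∑ n ∈ Icc 1 N, w' n * |tf n - tv v n| ≤ 3 * ε := by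
    rw [hw'def, wt_sum a haI (fun n => |tf n - tv v n|)]
    exact mean_T a (fun j => (ha.1 j).1) hv2 hε0 (hM3 v hv0 N hN3 k η a ha hη0 hη2)
  have hmean : ∀ y : ℕ → ℝ, IsWt N y → ∑ n ∈ Icc 1 N, y n * g n ≤ β →
      ∑ n ∈ Icc 1 N, y n * |tf n - tv v n| ≤ 3 * ε → ∑ n ∈ Icc 1 N, y n * e n ≤ θ := by
    intro y hy hy1 hy2
    have h1 : ∑ n ∈ Icc 1 N, y n * e n = u * ∑ n ∈ Icc 1 N, y n * g n +
        u * (W1 * ∑ n ∈ Icc 1 N, y n * |tf n - tv v n|) + (θ / 3) * ∑ n ∈ Icc 1 N, y n := by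
      rw [mul_sum, mul_sum, mul_sum, mul_sum, ← sum_add_distrib, ← sum_add_distrib]
      refine sum_congr rfl fun n _ => ?_
      simp only [he]
      ring
    rw [h1, hy.2, mul_one]
    have h2 : u * ∑ n ∈ Icc 1 N, y n * g n ≤ θ / 3 := by
      rw [← huβ]
      exact mul_le_mul_of_nonneg_left hy1 hu0.le
    have h3 : u * (W1 * ∑ n ∈ Icc 1 N, y n * |tf n - tv v n|) ≤ θ / 3 := by
      rw [← hεW]
      exact mul_le_mul_of_nonneg_left (mul_le_mul_of_nonneg_left hy2 hW10.le) hu0.le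
    linarith
  have hew := hmean w hw hgw1 hTw
  have hew' := hmean w' hw' hgw1' hTw'
  have hcmp := mean_compare hw hw' hu hα0 hpF hwx1 hxe hew hew'
  have hθa : 2 * (θ / α) = δ / 4 := by
    rw [hθ]
    field_simp
    norm_num
  have hcmp2 : |∑ n ∈ Icc 1 N, w n * ramp α (x n) - ∑ n ∈ Icc 1 N, w' n * ramp α (x n)| ≤
      δ / 2 := by
    refine hcmp.trans ?_
    rw [hθa]
    linarith
  -- pointwise implications
  have hkey : ∀ n ∈ Icc 1 N, u * ((repAB A B n : ℝ) * tf n) * (Real.log n) ^ 2 =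
      RR A B n * n := by
    intro n hn
    have hn0 : (n : ℝ) ≠ 0 := by
      have := (mem_Icc.1 hn).1
      exact_mod_cast (by omega : n ≠ 0)
    rw [RR_eq, ‹u = 1 / (2 * tw)›]
    field_simp
  have hp1 : ∀ n ∈ Icc 1 N, κ * N ≤ n → RR A B n ≤ c → x n ≤ α := by
    intro n hn hkn hr
    have hn1 := (mem_Icc.1 hn).1
    have hn2 := (mem_Icc.1 hn).2
    have hnr : (0 : ℝ) < n := by exact_mod_cast hn1
    have hnN : (n : ℝ) ≤ N := by exact_mod_cast hn2
    have h1 := hkey n hn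
    have h2 := hlogs n hn hkn
    have h3 : u * ((repAB A B n : ℝ) * tf n) * L ^ 2 ≤ (1 + γ) * (c * n) := by
      have h4 : 0 ≤ u * ((repAB A B n : ℝ) * tf n) :=
        mul_nonneg hu0.le (mul_nonneg (by positivity) (tf_pos n).le)
      calc u * ((repAB A B n : ℝ) * tf n) * L ^ 2 ≤
            u * ((repAB A B n : ℝ) * tf n) * ((1 + γ) * (Real.log n) ^ 2) := by gcongr
        _ = (1 + γ) * (u * ((repAB A B n : ℝ) * tf n) * (Real.log n) ^ 2) := by ring
        _ = (1 + γ) * (RR A B n * n) := by rw [h1]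
        _ ≤ (1 + γ) * (c * n) := by gcongr
    have h4 : u * (sf N A B n * tf n) = (u * ((repAB A B n : ℝ) * tf n) * L ^ 2) / N := by
      unfold sf
      rw [← hLdef]
      ring
    simp only [hx]
    rw [h4]
    have h5 : (u * ((repAB A B n : ℝ) * tf n) * L ^ 2) / N ≤ ((1 + γ) * (c * n)) / N := by gcongr
    have h6 : ((1 + γ) * (c * n)) / N = c * ((n : ℝ) / N) + γ * c * ((n : ℝ) / N) := by ring
    have h7 : γ * c * ((n : ℝ) / N) ≤ α := by
      have h8 : (n : ℝ) / N ≤ 1 := by rw [div_le_one hNpos]; exact hnN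
      calc γ * c * ((n : ℝ) / N) ≤ γ * C0 * 1 := by gcongr
        _ = α := by
            rw [hγ]
            field_simp
    linarith
  have hp2 : ∀ n ∈ Icc 1 N, κ * N ≤ n → x n < 2 * α → RR A B n ≤ c + δ := by
    intro n hn hkn hlt
    have hn1 := (mem_Icc.1 hn).1
    have hn2 := (mem_Icc.1 hn).2
    have hnr : (0 : ℝ) < n := by exact_mod_cast hn1
    have hnN : (n : ℝ) ≤ N := by exact_mod_cast hn2
    have h1 := hkey n hn
    have hln : 0 ≤ Real.log n := Real.log_nonneg (by exact_mod_cast hn1)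
    have hlL : Real.log n ≤ L := by
      rw [hLdef]
      exact Real.log_le_log hnr hnN
    have h4 : u * (sf N A B n * tf n) = (u * ((repAB A B n : ℝ) * tf n) * L ^ 2) / N := by
      unfold sf
      rw [← hLdef]
      ring
    simp only [hx] at hlt
    rw [h4] at hlt
    have h5 : 0 ≤ u * ((repAB A B n : ℝ) * tf n) :=
      mul_nonneg hu0.le (mul_nonneg (by positivity) (tf_pos n).le)
    have h6 : RR A B n * n ≤ u * ((repAB A B n : ℝ) * tf n) * L ^ 2 := by
      rw [← h1]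
      gcongr
    have h7 : u * ((repAB A B n : ℝ) * tf n) * L ^ 2 < (c * ((n : ℝ) / N) + 2 * α) * N := by
      rw [← div_lt_iff₀ hNpos]
      linarith
    have h8 : (c * ((n : ℝ) / N) + 2 * α) * N = c * n + 2 * α * N := by
      field_simp
    have h9 : 2 * α * N ≤ δ * n := by
      calc 2 * α * N = δ * (κ * N) := by rw [hα]; ring
        _ ≤ δ * n := by gcongr
    have h10 : RR A B n * n ≤ (c + δ) * n := by
      calc RR A B n * n ≤ c * n + 2 * α * N := by linarith
        _ ≤ c * n + δ * n := by linarith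
        _ = (c + δ) * n := by ring
    exact le_of_mul_le_mul_right h10 hnr
  have hfin1 := levy_step hw hw' (ρ := RR A B) hα0 hp1 hp2 hsw hsw' hcmp2
  exact le_trans hfin1 (by linarith)

end Pool.Agent.Lib.MP_629a14_nt.Spc
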